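import Mathlib
import Pool.Agent.Lib.MP_6489b8_al.Basic

/-!
# Alternative rings of characteristic 2: elementary identities
-/

namespace MP6489b8.CT

/-- Alternative rings in which `a + a = 0`. -/
class Alt2 (A : Type*) [NonUnitalNonAssocRing A] : Prop where
  alt : IsAlt A
  two : ∀ a : A, a + a = 0

variable {A : Type*} [NonUnitalNonAssocRing A]

/-- The associator (characteristic 2). -/
def as (a b c : A) : A := a * b * c + a * (b * c)

/-- The commutator (characteristic 2). -/
def D (a u : A) : A := a * u + u * a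

theorem as_add1 (a a' b c : A) : as (a + a') b c = as a b c + as a' b c := by
  simp only [as, add_mul]; abel
theorem as_add2 (a b b' c : A) : as a (b + b') c = as a b c + as a b' c := by
  simp only [as, add_mul, mul_add]; abel
theorem as_add3 (a b c c' : A) : as a b (c + c') = as a b c + as a b c' := by
  simp only [as, mul_add]; abel
theorem D_add1 (a a' u : A) : D (a + a') u = D a u + D a' u := by
  simp only [D, add_mul, mul_add]; abel
theorem D_add2 (a u u' : A) : D a (u + u') = D a u + D a u' := by
  simp only [D, add_mul, mul_add]; abel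
theorem D_comm (a u : A) : D a u = D u a := by simp only [D]; abel
theorem as_zero1 (b c : A) : as 0 b c = 0 := by simp [as]
theorem as_zero2 (a c : A) : as a 0 c = 0 := by simp [as]
theorem as_zero3 (a b : A) : as a b 0 = 0 := by simp [as]
theorem D_zero1 (u : A) : D 0 u = 0 := by simp [D]
theorem D_zero2 (a : A) : D a 0 = 0 := by simp [D]

section

variable [Alt2 A]

theorem two (a : A) : a + a = 0 := Alt2.two a
theorem twoZ (a : A) : (2 : ℤ) • a = 0 := by rw [two_zsmul]; exact two a
theorem twoN (a : A) : (2 : ℕ) • a = 0 := by rw [two_nsmul]; exact two a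
theorem threeZ (a : A) : (3 : ℤ) • a = a := by
  rw [show (3 : ℤ) = 2 + 1 by norm_num, add_smul, twoZ, zero_add, one_smul]
theorem threeN (a : A) : (3 : ℕ) • a = a := by
  rw [show (3 : ℕ) = 2 + 1 by norm_num, add_smul, twoN, zero_add, one_smul]
theorem fourZ (a : A) : (4 : ℤ) • a = 0 := by
  rw [show (4 : ℤ) = 2 + 2 by norm_num, add_smul, twoZ, zero_add]
theorem fourN (a : A) : (4 : ℕ) • a = 0 := by
  rw [show (4 : ℕ) = 2 + 2 by norm_num, add_smul, twoN, zero_add]
theorem neg2 (a : A) : -a = a := neg_eq_of_add_eq_zero_left (two a)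

theorem eq_of_add {a b : A} (h : a + b = 0) : a = b := by
  rw [← neg2 b]; exact eq_neg_of_add_eq_zero_left h

theorem add_of_eq {a b : A} (h : a = b) : a + b = 0 := by rw [h]; exact two b

theorem sixZ (a : A) : (6 : ℤ) • a = 0 := by
  rw [show (6 : ℤ) = 4 + 2 by norm_num, add_smul, twoZ, fourZ, zero_add]
theorem eightZ (a : A) : (8 : ℤ) • a = 0 := by
  rw [show (8 : ℤ) = 4 + 4 by norm_num, add_smul, fourZ, zero_add]

theorem lin0 {x y : A} (h : x + y = 0) : x = y := eq_of_add h
theorem lin1 {x y a₁ b₁ : A} (h1 : a₁ = b₁) (h : x + y + (a₁ + b₁) = 0) : x = y := by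
  rw [add_of_eq h1, add_zero] at h; exact eq_of_add h
theorem lin2 {x y a₁ b₁ a₂ b₂ : A} (h1 : a₁ = b₁) (h2 : a₂ = b₂)
    (h : x + y + (a₁ + b₁) + (a₂ + b₂) = 0) : x = y := by
  rw [add_of_eq h2, add_zero] at h; exact lin1 h1 h
theorem lin3 {x y a₁ b₁ a₂ b₂ a₃ b₃ : A} (h1 : a₁ = b₁) (h2 : a₂ = b₂) (h3 : a₃ = b₃)
    (h : x + y + (a₁ + b₁) + (a₂ + b₂) + (a₃ + b₃) = 0) : x = y := by
  rw [add_of_eq h3, add_zero] at h; exact lin2 h1 h2 h
theorem lin4 {x y a₁ b₁ a₂ b₂ a₃ b₃ a₄ b₄ : A} (h1 : a₁ = b₁) (h2 : a₂ = b₂) (h3 : a₃ = b₃)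
    (h4 : a₄ = b₄)
    (h : x + y + (a₁ + b₁) + (a₂ + b₂) + (a₃ + b₃) + (a₄ + b₄) = 0) : x = y := by
  rw [add_of_eq h4, add_zero] at h; exact lin3 h1 h2 h3 h
theorem lin5 {x y a₁ b₁ a₂ b₂ a₃ b₃ a₄ b₄ a₅ b₅ : A} (h1 : a₁ = b₁) (h2 : a₂ = b₂)
    (h3 : a₃ = b₃) (h4 : a₄ = b₄) (h5 : a₅ = b₅)
    (h : x + y + (a₁ + b₁) + (a₂ + b₂) + (a₃ + b₃) + (a₄ + b₄) + (a₅ + b₅) = 0) : x = y := by
  rw [add_of_eq h5, add_zero] at h; exact lin4 h1 h2 h3 h4 h

theorem as_eq_asr (a b c : A) : as a b c = asr a b c := by
  rw [as, asr, sub_eq_add_neg, neg2]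

theorem as12 (a b c : A) : as a b c = as b a c := by
  rw [as_eq_asr, as_eq_asr, asr_sw12 Alt2.alt, neg2]
theorem as23 (a b c : A) : as a b c = as a c b := by
  rw [as_eq_asr, as_eq_asr, asr_sw23 Alt2.alt, neg2]
theorem as13 (a b c : A) : as a b c = as c b a := by
  rw [as12, as23, as12]
theorem asC (a b c : A) : as a b c = as b c a := by rw [as12, as23]
theorem asC' (a b c : A) : as a b c = as c a b := by rw [as23, as12]
theorem as_self12 (a b : A) : as a a b = 0 := by rw [as_eq_asr, asr_self_left Alt2.alt]
theorem as_self23 (a b : A) : as a b b = 0 := by rw [as_eq_asr, asr_self_right Alt2.alt]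
theorem as_self13 (a b : A) : as a b a = 0 := by rw [as23, as_self12]

/-- Teichmueller identity. -/
theorem teich (a b c d : A) :
    as (a * b) c d + as a (b * c) d + as a b (c * d) = a * as b c d + as a b c * d := by
  apply eq_of_add
  simp only [as, mul_add, add_mul]
  abel_nf
  simp only [twoZ, add_zero]

theorem mulL (d e u : A) : d * as d e u = as d (e * d) u := by
  rw [as_eq_asr, as_eq_asr, asr_cyc Alt2.alt d e u, asr_cyc Alt2.alt d (e * d) u]
  have h := asr_mul_right Alt2.alt u e d
  rw [asr_cyc' Alt2.alt e u d, asr_cyc' Alt2.alt (e * d) u d, asr_sw23 Alt2.alt d e u,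
    asr_sw23 Alt2.alt d (e * d) u, asr_sw12 Alt2.alt d u e, asr_sw12 Alt2.alt d u (e * d),
    asr_sw23 Alt2.alt u d e, asr_sw23 Alt2.alt u d (e * d), h]
  simp only [neg2]

theorem mulR (d e u : A) : as d e u * d = as d (d * e) u := by
  have h := asr_mul_left Alt2.alt u e d
  rw [← as_eq_asr, ← as_eq_asr] at h
  rw [as23 d e u, as12 d u e, as23 u d e, ← h, as23, as12, as23]

/-- Linearised alternation of the associator against a product. -/
theorem le (a b x y : A) :
    as a b (x * y) = as a b x * y + x * as a b y + as (D a b) x y := by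
  have h := asr_mul Alt2.alt x y a b
  rw [sub_eq_add_neg, neg2, ← as_eq_asr, ← as_eq_asr, ← as_eq_asr, ← as_eq_asr, com,
    sub_eq_add_neg, neg2] at h
  rw [asC a b (x * y), asC b (x * y) a, h, asC y a b, asC x a b, D]
  abel

/-- `rho_{c y}` is a derivation of the commutator algebra. -/
theorem ider (u v c y : A) :
    as (D u v) c y = D u (as v c y) + D v (as u c y) := by
  have h1 := le c y u v
  have h2 := le c y v u
  have e : as (D u v) c y = as c y (u * v) + as c y (v * u) := by
    rw [← as_add3, asC' c y (u * v + v * u), D]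
  rw [asC' c y u, asC' c y v] at h1 h2
  rw [as23 (D c y) v u] at h2
  rw [e, h1, h2]
  generalize as (D c y) u v = K
  simp only [D]
  apply eq_of_add
  abel_nf
  simp only [twoZ, add_zero]

/-- Jacobi identity. -/
theorem jac (a b u : A) : D a (D b u) + D b (D a u) = D (D a b) u := by
  have h1 : as a b u + as b a u + as a u b + as u a b + as b u a + as u b a = 0 := by
    rw [as12 b a u, as23 a u b, as12 u a b, as23 a u b, as12 b u a, as23 u b a, as12 u a b,
      as23 a u b]
    abel_nf
    rw [show (6 : ℤ) = 2 * 3 by norm_num, mul_smul, twoZ]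
  apply eq_of_add
  rw [← h1]
  apply eq_of_add
  simp only [D, as, mul_add, add_mul]
  abel_nf
  simp only [twoZ, add_zero]

theorem D_sq (a u : A) : D a (D a u) = D (a * a) u := by
  have h1 : as a a u + as a u a + as u a a = 0 := by
    rw [as_self12, as_self13, as_self23, add_zero, add_zero]
  apply eq_of_add
  rw [← h1]
  apply eq_of_add
  simp only [D, as, mul_add, add_mul]
  abel_nf
  simp only [twoZ, add_zero]

theorem D_mul (a b u : A) :
    D (a * b) u = a * D b u + b * D a u + D b (D a u) + as a b u := by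
  have h1 : as u a b + as a u b = 0 := by rw [as12 u a b, two]
  apply eq_of_add
  rw [← h1]
  apply eq_of_add
  simp only [D, as, mul_add, add_mul]
  abel_nf
  simp only [twoZ, add_zero]

theorem D_mul' (a b u : A) :
    D (a * b) u = D b u * a + D a u * b + D a (D b u) + as a b u := by
  have h1 : as u a b + as a u b = 0 := by rw [as12 u a b, two]
  apply eq_of_add
  rw [← h1]
  apply eq_of_add
  simp only [D, as, mul_add, add_mul]
  abel_nf
  simp only [twoZ, add_zero]

theorem D_Lmul (a b u : A) :
    D b (a * u) = a * D b u + D a b * u + as a b u := by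
  have h1 : as b a u + as a u b = 0 := by rw [as23 a u b, as12 b a u, two]
  apply eq_of_add
  rw [← h1]
  apply eq_of_add
  simp only [D, as, mul_add, add_mul]
  abel_nf
  simp only [twoZ, add_zero]

theorem D_rho (a b c u : A) :
    D c (as a b u) = as a b (D c u) + D (as a b c) u := by
  have h := ider c u a b
  rw [asC (D c u) a b, asC u a b, asC c a b, D_comm u] at h
  rw [h, add_assoc, two, add_zero]

theorem key (a b c u : A) :
    as (a * b) c u = b * as a c u + as b c u * a + as (D a b) c u + as a b (D c u) := by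
  have h := le c u b a
  have e : as (D a b) c u = as (a * b) c u + as (b * a) c u := by
    rw [← as_add1, D]
  rw [asC' c u (b * a), asC' c u b, asC' c u a, as23 (D c u) b a, asC (D c u) a b] at h
  rw [e, h]
  apply eq_of_add
  abel_nf
  simp only [twoZ, add_zero]

/-- The derivation property of `D a` up to an associator. -/
theorem a4 (a x y : A) : D a x * y + x * D a y = D a (x * y) + as a x y := by
  have h1 : as x a y + as x y a = 0 := by rw [as23 x a y, two]
  apply eq_of_add
  rw [← h1]
  apply eq_of_add
  simp only [D, as, mul_add, add_mul]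
  abel_nf
  simp only [twoZ, add_zero]

/-- Linearised Moufang identity. -/
theorem mo (a b x y : A) :
    as a (D b x) y + as b (D a x) y = D a (as b x y) + D b (as a x y) := by
  rw [as12 a (D b x) y, as12 b (D a x) y, ider, ider, as12 x a y, as12 x b y, as12 a b y]
  apply eq_of_add
  abel_nf
  simp only [twoZ, add_zero]

theorem mo_self (a x y : A) : as a (D a x) y = D a (as a x y) := by
  rw [as12 a (D a x) y, ider, as_self12, D_zero2, add_zero, as12 x a y]

theorem x5 (a b x y : A) :
    as b (D a x) y + as b x (D a y) = as a b (x * y) + as a b (y * x) := by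
  rw [← as_add3, show x * y + y * x = D x y from rfl, asC' a b (D x y), asC b (D a x) y,
    as23 (D a x) y b, as13 b x (D a y), ider, ider, ider, as12 x b y, as13 y x b, as12 y a b,
    as23 a y b, as12 a x b, as23 x a b, as12 a b y, as12 b a y, as23 x b a]
  apply eq_of_add
  abel_nf
  simp only [twoZ, add_zero]

theorem y1 (a b x y : A) :
    as a (D b x) y = as a b x * y + y * as a b x + D b (as a x y) +
      (as a b (x * y) + as a b (y * x)) := by
  rw [← as_add3, show x * y + y * x = D x y from rfl, asC' a b (D x y), as12 a (D b x) y, ider,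
    ider, as12 x a y, as12 b a y, as12 y a b, as23 a y b, as12 x a b, as23 a x b]
  have h : as a b x * y + y * as a b x = D y (as a b x) := by rw [D]; abel
  rw [h]
  apply eq_of_add
  abel_nf
  simp only [twoZ, add_zero]

theorem nuc (a b u : A) : as a b u = D (a * b) u + a * D b u + D a u * b := by
  have h1 : as a b u + as u a b + (as a b u + as a u b) = 0 := by
    rw [asC' a b u, two, zero_add, as23 a u b, asC a b u, asC b u a, two]
  apply eq_of_add
  rw [← h1]
  apply eq_of_add
  simp only [D, as, mul_add, add_mul]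
  abel_nf
  simp only [twoZ, fourZ, add_zero]

/-- The inner derivation `rho_{af} + D_{[a,f]}`. -/
def del (a f u : A) : A := as a f u + D (D a f) u

theorem del_mul (a f x y : A) : del a f (x * y) = del a f x * y + x * del a f y := by
  have h1 := le a f x y
  have h2 := a4 (D a f) x y
  simp only [del, add_mul, mul_add]
  rw [h1]
  have h3 : D (D a f) (x * y) = D (D a f) x * y + x * D (D a f) y + as (D a f) x y := by
    rw [h2, add_assoc, two, add_zero]
  rw [h3]
  generalize as (D a f) x y = K
  apply eq_of_add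
  abel_nf
  simp only [twoZ, add_zero]

omit [Alt2 A] in
theorem del_add (a f x y : A) : del a f (x + y) = del a f x + del a f y := by
  simp only [del, as_add3, D_add2]; abel

theorem del_as (a f b x y : A) :
    del a f (as b x y) = as (del a f b) x y + as b (del a f x) y + as b x (del a f y) := by
  simp only [as, del_add, del_mul, add_mul, mul_add]
  abel

theorem bd (a f b x y : A) :
    as b (as a f x) y + as b x (as a f y) =
      as a f (as b x y) + D (D a f) (as b x y) + as (as a f b) x y + as (D (D a f) b) x y +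
        (as b (D (D a f) x) y + as b x (D (D a f) y)) := by
  have h := del_as a f b x y
  simp only [del, as_add1, as_add2, as_add3] at h
  rw [h]
  apply eq_of_add
  abel_nf
  simp only [twoZ, add_zero]

end

end MP6489b8.CT
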