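import Mathlib
import Pool.Agent.Lib.MP_6489b8_al.Super

/-!
# A 22-dimensional superalgebra over the field of two elements: the table
-/

namespace MP6489b8.CT

/-- The rows of the multiplication table. -/
def rows22 : List (List (List (ℕ × ℤ))) := [
  [[(0, 1)], [(1, 1)], [(2, 1)], [(3, 1)], [(4, 1)], [(5, 1)], [(6, 1)], [(7, 1)], [(8, 1)],
    [(9, 1)], [(10, 1)], [(11, 1)], [(12, 1)], [(13, 1)], [(14, 1)], [(15, 1)], [(16, 1)],
    [(17, 1)], [(18, 1)], [(19, 1)], [(20, 1)], [(21, 1)]],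
  [[(1, 1)], [(0, 1)], [(5, 1)], [(6, 1)], [(7, 1)], [(2, 1)], [], [(4, 1)], [(12, 1), (13, 1)],
    [(12, 1), (13, 1)], [(14, 1)], [(14, 1)], [(8, 1), (9, 1)], [(8, 1), (9, 1)], [],
    [(10, 1), (11, 1)], [(18, 1), (19, 1)], [(18, 1), (19, 1)], [(16, 1), (17, 1)],
    [(16, 1), (17, 1)], [(21, 1)], [(20, 1)]],
  [[(2, 1)], [(5, 1)], [], [(9, 1)], [], [], [(12, 1), (13, 1)], [], [], [], [(17, 1)],
    [(16, 1)], [], [], [(18, 1), (19, 1)], [(19, 1)]],
  [[(3, 1)], [], [(8, 1)], [], [(11, 1)], [(12, 1)], [], [(14, 1), (15, 1)], [], [], [], [], [],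
    [], [], [], [], [(20, 1)], [], [(21, 1)]],
  [[(4, 1)], [(7, 1)], [], [(10, 1)], [], [], [(14, 1)], [], [(16, 1)], [(17, 1)], [], [],
    [(18, 1)], [(19, 1)]],
  [[(5, 1)], [(2, 1)], [], [(13, 1)], [], [], [(8, 1), (9, 1)], [], [], [], [(19, 1)],
    [(18, 1)], [], [], [(16, 1), (17, 1)], [(17, 1)]],
  [[(6, 1)], [(3, 1)], [(13, 1)], [], [(15, 1)], [(9, 1)], [], [(10, 1)], [], [], [], [], [],
    [], [], [], [(21, 1)], [], [(20, 1)]],
  [[(7, 1)], [(4, 1)], [], [(15, 1)], [], [], [(10, 1), (11, 1)], [], [(18, 1)], [(19, 1)], [],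
    [], [(16, 1)], [(17, 1)]],
  [[(8, 1)], [], [], [], [(17, 1)], [], [], [(19, 1)], [], [], [], [(20, 1)], [], [], [(21, 1)]],
  [[(9, 1)], [(12, 1)], [], [], [(16, 1), (17, 1)], [], [], [(18, 1), (19, 1)], [], [],
    [(20, 1)], [(20, 1)], [], [], [], [(21, 1)]],
  [[(10, 1)], [(14, 1), (15, 1)], [(16, 1), (17, 1)], [], [], [(18, 1), (19, 1)], [], [],
    [(20, 1)], [(20, 1)], [], [], [(21, 1)], [(21, 1)]],
  [[(11, 1)], [], [(17, 1)], [], [], [(19, 1)], [], [], [(20, 1)], [], [], [], [(21, 1)]],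
  [[(12, 1)], [], [], [], [(19, 1)], [], [], [(17, 1)], [], [], [], [(21, 1)], [], [], [(20, 1)]],
  [[(13, 1)], [(8, 1)], [], [], [(18, 1), (19, 1)], [], [], [(16, 1), (17, 1)], [], [],
    [(21, 1)], [(21, 1)], [], [], [], [(20, 1)]],
  [[(14, 1)], [(11, 1)], [(18, 1)], [], [], [(16, 1)], [], [], [], [(21, 1)], [], [], [],
    [(20, 1)]],
  [[(15, 1)], [(11, 1)], [(18, 1), (19, 1)], [], [], [(16, 1), (17, 1)], [], [], [(21, 1)],
    [(21, 1)], [], [], [(20, 1)], [(20, 1)]],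
  [[(16, 1)], [(19, 1)], [], [(20, 1)]],
  [[(17, 1)], [], [], [(20, 1)], [], [], [(21, 1)]],
  [[(18, 1)], [(17, 1)], [], [(21, 1)]],
  [[(19, 1)], [], [], [(21, 1)], [], [], [(20, 1)]],
  [[(20, 1)], [(21, 1)]],
  [[(21, 1)], [(20, 1)]]]

/-- The parities. -/
def par22 : List Bool := [false, true, false, false, false, true, true, true, false, false, false, false, true, true, true, true, false, false, true, true, false, true]

/-- The table. -/
def M22 : Tab where
  d := 22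
  p i := par22.getD i false
  m i j := (rows22.getD i []).getD j []

theorem M22_out (i j : ℕ) (h : 22 ≤ i ∨ 22 ≤ j) : M22.m i j = [] := by
  show (rows22.getD i []).getD j [] = []
  by_cases hi : 22 ≤ i
  · have : rows22.getD i [] = [] := List.getD_eq_default _ _ (by simpa [rows22] using hi)
    rw [this]; rfl
  · have hj : 22 ≤ j := by omega
    apply List.getD_eq_default
    have h1 : ∀ row ∈ rows22, row.length ≤ 22 := by decide +kernel
    have h2 : i < rows22.length := by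
      have : rows22.length = 22 := rfl
      omega
    rw [List.getD_eq_getElem _ _ h2]
    exact (h1 _ (List.getElem_mem h2)).trans hj

end MP6489b8.CT
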