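import Mathlib
import Pool.Agent.Lib.MP_6489b8_al.CT.Tab22

/-!
# The table of the 22-dimensional superalgebra is alternative modulo two
-/

namespace MP6489b8.CT

open Tab

/-- The check of the linearised left law for a fixed first index. -/
def chkL (i : ℕ) : Bool := (List.range 22).all fun j => (List.range 22).all fun k =>
  zer 2 (M22.mulR k (M22.m i j) ++ scal (sg (M22.p i) (M22.p j)) (M22.mulR k (M22.m j i)) ++
    scal (-1) (M22.mulL i (M22.m j k) ++ scal (sg (M22.p i) (M22.p j)) (M22.mulL j (M22.m i k))))

/-- The check of the linearised right law for a fixed first index. -/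
def chkR (i : ℕ) : Bool := (List.range 22).all fun j => (List.range 22).all fun k =>
  zer 2 (M22.mulR j (M22.m k i) ++ scal (sg (M22.p i) (M22.p j)) (M22.mulR i (M22.m k j)) ++
    scal (-1) (M22.mulL k (M22.m i j) ++ scal (sg (M22.p i) (M22.p j)) (M22.mulL k (M22.m j i))))

/-- The check of the quadratic laws. -/
def chkQ (i : ℕ) : Bool := (List.range 22).all fun k =>
  zer 2 (M22.mulR k (M22.m i i) ++ scal (-1) (M22.mulL i (M22.m i k))) &&
  zer 2 (M22.mulR i (M22.m k i) ++ scal (-1) (M22.mulL k (M22.m i i)))

/-- The check of the parities. -/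
def chkP (i : ℕ) : Bool := (List.range 22).all fun j =>
  (M22.m i j).all fun x => M22.p x.1 == xor (M22.p i) (M22.p j)

set_option maxRecDepth 100000 in
theorem chkL_all : (List.range 22).all chkL = true := by decide +kernel
set_option maxRecDepth 100000 in
theorem chkR_all : (List.range 22).all chkR = true := by decide +kernel
set_option maxRecDepth 100000 in
theorem chkQ_all : (List.range 22).all (fun i => M22.p i || chkQ i) = true := by decide +kernel
set_option maxRecDepth 100000 in
theorem chkP_all : (List.range 22).all chkP = true := by decide +kernel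

theorem scal_nil (c : ℤ) : scal c [] = [] := rfl
theorem mulR_nil (k : ℕ) : M22.mulR k [] = [] := rfl
theorem mulL_nil (k : ℕ) : M22.mulL k [] = [] := rfl

theorem mulL_big (i : ℕ) (hi : 22 ≤ i) (l : List (ℕ × ℤ)) : M22.mulL i l = [] := by
  induction l with
  | nil => rfl
  | cons x l ih => rw [Tab.mulL, ih, M22_out i x.1 (Or.inl hi)]; rfl

theorem mulR_big (i : ℕ) (hi : 22 ≤ i) (l : List (ℕ × ℤ)) : M22.mulR i l = [] := by
  induction l with
  | nil => rfl
  | cons x l ih => rw [Tab.mulR, ih, M22_out x.1 i (Or.inr hi)]; rfl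

theorem M22_alt : M22.Alt 2 where
  par := by
    intro i j x hx
    by_cases h : 22 ≤ i ∨ 22 ≤ j
    · rw [M22_out i j h] at hx
      simp at hx
    · have h1 := List.all_eq_true.1 chkP_all i (List.mem_range.2 (by omega))
      have h2 := List.all_eq_true.1 h1 j (List.mem_range.2 (by omega))
      have h3 := List.all_eq_true.1 h2 x hx
      simpa using h3
  l1 := by
    intro i k hp
    by_cases hi : 22 ≤ i
    · rw [M22_out i i (Or.inl hi), M22_out i k (Or.inl hi)]; rfl
    by_cases hk : 22 ≤ k
    · rw [mulR_big k hk, M22_out i k (Or.inr hk)]; rfl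
    have h1 := List.all_eq_true.1 chkQ_all i (List.mem_range.2 (by omega))
    rw [hp, Bool.false_or] at h1
    have h2 := List.all_eq_true.1 h1 k (List.mem_range.2 (by omega))
    exact (Bool.and_eq_true_iff.1 h2).1
  l2 := by
    intro i j k
    by_cases hi : 22 ≤ i
    · rw [M22_out i j (Or.inl hi), M22_out j i (Or.inr hi), M22_out i k (Or.inl hi),
        mulL_big i hi]; rfl
    by_cases hj : 22 ≤ j
    · rw [M22_out i j (Or.inr hj), M22_out j i (Or.inl hj), M22_out j k (Or.inl hj),
        mulL_big j hj]; rfl
    by_cases hk : 22 ≤ k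
    · rw [mulR_big k hk, mulR_big k hk, M22_out i k (Or.inr hk), M22_out j k (Or.inr hk)]; rfl
    have h1 := List.all_eq_true.1 chkL_all i (List.mem_range.2 (by omega))
    have h2 := List.all_eq_true.1 h1 j (List.mem_range.2 (by omega))
    exact List.all_eq_true.1 h2 k (List.mem_range.2 (by omega))
  r1 := by
    intro i k hp
    by_cases hi : 22 ≤ i
    · rw [M22_out i i (Or.inl hi), M22_out k i (Or.inr hi)]; rfl
    by_cases hk : 22 ≤ k
    · rw [M22_out k i (Or.inl hk), mulL_big k hk]; rfl
    have h1 := List.all_eq_true.1 chkQ_all i (List.mem_range.2 (by omega))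
    rw [hp, Bool.false_or] at h1
    have h2 := List.all_eq_true.1 h1 k (List.mem_range.2 (by omega))
    exact (Bool.and_eq_true_iff.1 h2).2
  r2 := by
    intro i j k
    by_cases hi : 22 ≤ i
    · rw [M22_out i j (Or.inl hi), M22_out j i (Or.inr hi), M22_out k i (Or.inr hi),
        mulR_big i hi]; rfl
    by_cases hj : 22 ≤ j
    · rw [M22_out i j (Or.inr hj), M22_out j i (Or.inl hj), M22_out k j (Or.inr hj),
        mulR_big j hj]; rfl
    by_cases hk : 22 ≤ k
    · rw [mulL_big k hk, mulL_big k hk, M22_out k i (Or.inl hk), M22_out k j (Or.inl hk)]; rfl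
    have h1 := List.all_eq_true.1 chkR_all i (List.mem_range.2 (by omega))
    have h2 := List.all_eq_true.1 h1 j (List.mem_range.2 (by omega))
    exact List.all_eq_true.1 h2 k (List.mem_range.2 (by omega))

end MP6489b8.CT
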