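import Mathlib
import Pool.Agent.Lib.MP_6489b8_al.CT.Ids

/-!
# Forms: finite sums of pairs
-/

namespace MP6489b8.CT

variable {A : Type*} [NonUnitalNonAssocRing A]

/-- Symmetric evaluation of a form. -/
def ev (l : List (A × A)) (f : A → A → A) : A := (l.map fun p => f p.1 p.2 + f p.2 p.1).sum

/-- The pairing. -/
def pr (l : List (A × A)) (M N : A → A) : A := ev l fun u v => M u * N v

/-- The brace. -/
def br (l : List (A × A)) (e : A) (M N : A → A) : A := ev l fun u v => as e (M u) (N v)

/-- The derivative of a form. -/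
def der (e : A) (l : List (A × A)) : List (A × A) :=
  l.flatMap fun p => [(D e p.1, p.2), (p.1, D e p.2)]

/-- Products of operators `D`. -/
def DW : List A → A → A
  | [], u => u
  | a :: s, u => D a (DW s u)

theorem ev_nil (f : A → A → A) : ev [] f = 0 := rfl

theorem ev_cons (p : A × A) (l : List (A × A)) (f : A → A → A) :
    ev (p :: l) f = f p.1 p.2 + f p.2 p.1 + ev l f := by simp [ev]

theorem ev_add (l : List (A × A)) (f g : A → A → A) :
    ev l (fun u v => f u v + g u v) = ev l f + ev l g := by
  induction l with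
  | nil => simp [ev]
  | cons p l ih => rw [ev_cons, ev_cons, ev_cons, ih]; abel

theorem ev_congr (l : List (A × A)) {f g : A → A → A} (h : ∀ u v, f u v = g u v) :
    ev l f = ev l g := by
  have : f = g := by funext u v; exact h u v
  rw [this]

theorem ev_swap (l : List (A × A)) (f : A → A → A) : ev l (fun u v => f v u) = ev l f := by
  induction l with
  | nil => rfl
  | cons p l ih => rw [ev_cons, ev_cons, ih]; abel

theorem ev_map (l : List (A × A)) (f : A → A → A) (φ : A → A) (h0 : φ 0 = 0)
    (ha : ∀ a b, φ (a + b) = φ a + φ b) : ev l (fun u v => φ (f u v)) = φ (ev l f) := by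
  induction l with
  | nil => exact h0.symm
  | cons p l ih => rw [ev_cons, ev_cons, ih, ha, ha]

theorem ev_mulL (l : List (A × A)) (f : A → A → A) (a : A) :
    ev l (fun u v => a * f u v) = a * ev l f :=
  ev_map l f (fun x => a * x) (mul_zero a) (fun x y => mul_add a x y)

theorem ev_mulR (l : List (A × A)) (f : A → A → A) (a : A) :
    ev l (fun u v => f u v * a) = ev l f * a :=
  ev_map l f (fun x => x * a) (zero_mul a) (fun x y => add_mul x y a)

theorem ev_D (l : List (A × A)) (f : A → A → A) (a : A) :
    ev l (fun u v => D a (f u v)) = D a (ev l f) :=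
  ev_map l f (D a) (D_zero2 a) (D_add2 a)

theorem ev_as (l : List (A × A)) (f : A → A → A) (a b : A) :
    ev l (fun u v => as a b (f u v)) = as a b (ev l f) :=
  ev_map l f (as a b) (as_zero3 a b) (as_add3 a b)

theorem ev_zero (l : List (A × A)) : ev l (fun _ _ => (0 : A)) = 0 := by
  induction l with
  | nil => rfl
  | cons p l ih => rw [ev_cons, ih]; simp

theorem ev_der (l : List (A × A)) (e : A) (f : A → A → A) :
    ev (der e l) f = ev l (fun u v => f (D e u) v + f u (D e v)) := by
  induction l with
  | nil => rfl
  | cons p l ih =>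
    rw [ev_cons, ← ih]
    have : der e (p :: l) = (D e p.1, p.2) :: (p.1, D e p.2) :: der e l := by
      simp [der]
    rw [this, ev_cons, ev_cons]
    abel

section

variable (l : List (A × A)) (M M' N N' : A → A) (a b c e f : A)

theorem pr_add1 : pr l (fun u => M u + M' u) N = pr l M N + pr l M' N := by
  rw [pr, pr, pr, ← ev_add]; apply ev_congr; intro u v; rw [add_mul]
theorem pr_add2 : pr l M (fun u => N u + N' u) = pr l M N + pr l M N' := by
  rw [pr, pr, pr, ← ev_add]; apply ev_congr; intro u v; rw [mul_add]
theorem br_add1 : br l (a + b) M N = br l a M N + br l b M N := by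
  rw [br, br, br, ← ev_add]; apply ev_congr; intro u v; rw [as_add1]
theorem br_add2 : br l a (fun u => M u + M' u) N = br l a M N + br l a M' N := by
  rw [br, br, br, ← ev_add]; apply ev_congr; intro u v; rw [as_add2]
theorem br_add3 : br l a M (fun u => N u + N' u) = br l a M N + br l a M N' := by
  rw [br, br, br, ← ev_add]; apply ev_congr; intro u v; rw [as_add3]

variable {M M' N N'} in
theorem pr_congr (h : ∀ u, M u = M' u) (h' : ∀ u, N u = N' u) : pr l M N = pr l M' N' := by
  have e1 : M = M' := funext h
  have e2 : N = N' := funext h'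
  rw [e1, e2]

variable {M M' N N'} in
theorem br_congr (h : ∀ u, M u = M' u) (h' : ∀ u, N u = N' u) : br l a M N = br l a M' N' := by
  have e1 : M = M' := funext h
  have e2 : N = N' := funext h'
  rw [e1, e2]

theorem pr_zero1 : pr l (fun _ => 0) N = 0 :=
  (ev_congr l (fun _ v => zero_mul (N v))).trans (ev_zero l)
theorem pr_zero2 : pr l M (fun _ => 0) = 0 :=
  (ev_congr l (fun u _ => mul_zero (M u))).trans (ev_zero l)
theorem br_zero2 : br l a (fun _ => 0) N = 0 :=
  (ev_congr l (fun _ v => as_zero2 a (N v))).trans (ev_zero l)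

theorem pr_der : pr (der e l) M N = pr l (fun u => M (D e u)) N + pr l M (fun u => N (D e u)) := by
  rw [pr, ev_der, ev_add]; rfl
theorem br_der : br (der e l) a M N =
    br l a (fun u => M (D e u)) N + br l a M (fun u => N (D e u)) := by
  rw [br, ev_der, ev_add]; rfl

theorem pr_add1' (F : A → A → A) (hF : ∀ a b u, F (a + b) u = F a u + F b u) :
    pr l (fun u => F (a + b) u) N = pr l (F a) N + pr l (F b) N := by
  rw [← pr_add1]; apply pr_congr
  · intro u; exact hF a b u
  · intro u; rfl
theorem pr_add2' (F : A → A → A) (hF : ∀ a b u, F (a + b) u = F a u + F b u) :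
    pr l M (fun u => F (a + b) u) = pr l M (F a) + pr l M (F b) := by
  rw [← pr_add2]; apply pr_congr
  · intro u; rfl
  · intro u; exact hF a b u

variable [Alt2 A]

theorem pr_L : pr l (fun u => a * M u) N = a * pr l M N + br l a M N := by
  rw [pr, pr, br, ← ev_mulL, ← ev_add]; apply ev_congr; intro u v
  rw [as, ← add_assoc, add_comm (a * (M u * N v)), add_assoc, two, add_zero]

theorem pr_R : pr l M (fun u => N u * a) = pr l M N * a + br l a M N := by
  rw [pr, pr, br, ← ev_mulR, ← ev_add]; apply ev_congr; intro u v
  rw [asC a (M u) (N v), as, ← add_assoc, two, zero_add]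

theorem pr_RL : pr l (fun u => M u * a) N + pr l M (fun u => a * N u) = br l a M N := by
  rw [pr, pr, br, ← ev_add]; apply ev_congr; intro u v
  rw [as12 a (M u) (N v), as]

theorem pr_D : pr l (fun u => D a (M u)) N = a * pr l M N + pr l M (fun u => a * N u) := by
  have h1 := pr_L l M N a
  have h2 := pr_RL l M N a
  have h3 : pr l (fun u => D a (M u)) N = pr l (fun u => a * M u) N + pr l (fun u => M u * a) N :=
    pr_add1 l _ _ N
  rw [h3, h1, ← h2]
  apply eq_of_add
  abel_nf
  simp only [twoZ, add_zero]

theorem pr_a4 : pr l (fun u => D a (M u)) N + pr l M (fun u => D a (N u)) =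
    D a (pr l M N) + br l a M N := by
  rw [pr, pr, pr, br, ← ev_D, ← ev_add, ← ev_add]; apply ev_congr; intro u v; exact a4 _ _ _

theorem br_swap : br l e M N = br l e N M := by
  rw [br, br, ← ev_swap]; apply ev_congr; intro u v; exact as23 _ _ _

omit [Alt2 A] in
theorem pr_swap : ev l (fun u v => N v * M u) = pr l N M := by
  rw [pr, ← ev_swap]

theorem br_mo : br l a (fun u => D b (M u)) N + br l b (fun u => D a (M u)) N =
    D a (br l b M N) + D b (br l a M N) := by
  rw [br, br, br, br, ← ev_D, ← ev_D, ← ev_add, ← ev_add]; apply ev_congr; intro u v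
  exact mo _ _ _ _

theorem br_mo_self : br l a (fun u => D a (M u)) N = D a (br l a M N) := by
  rw [br, br, ← ev_D]; apply ev_congr; intro u v; exact mo_self _ _ _

theorem br_x5 : br l b (fun u => D a (M u)) N + br l b M (fun u => D a (N u)) =
    as a b (pr l M N + pr l N M) := by
  have h : ev l (fun u v => N v * M u) = pr l N M := pr_swap l M N
  rw [as_add3, ← h, br, br, pr, ← ev_as, ← ev_as, ← ev_add, ← ev_add]
  apply ev_congr; intro u v
  exact x5 _ _ _ _

theorem br_y1 : br l a (fun u => D b (M u)) N =
    pr l (fun u => as a b (M u)) N + pr l N (fun u => as a b (M u)) + D b (br l a M N) +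
      as a b (pr l M N + pr l N M) := by
  have h : ev l (fun u v => N v * M u) = pr l N M := pr_swap l M N
  have h' : ev l (fun u v => N v * as a b (M u)) = pr l N (fun u => as a b (M u)) :=
    pr_swap l (fun u => as a b (M u)) N
  rw [as_add3, ← h, ← h', br, br, pr, pr, ← ev_as, ← ev_as, ← ev_D, ← ev_add, ← ev_add, ← ev_add,
    ← ev_add]
  apply ev_congr; intro u v
  rw [y1]

theorem br_teich : br l a (fun u => b * M u) N =
    br l (a * b) M N + a * br l b M N + pr l (fun u => as a b (M u)) N + as a b (pr l M N) := by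
  rw [br, br, br, pr, pr, ← ev_as, ← ev_mulL, ← ev_add, ← ev_add, ← ev_add]
  apply ev_congr; intro u v
  have h := teich a b (M u) (N v)
  apply eq_of_add
  have h' := add_of_eq h
  rw [← h']
  abel

theorem pr_le : pr l (fun u => as a b (M u)) N + pr l M (fun u => as a b (N u)) =
    as a b (pr l M N) + br l (D a b) M N := by
  rw [pr, pr, pr, br, ← ev_as, ← ev_add, ← ev_add]
  apply ev_congr; intro u v
  rw [le, add_assoc, two, add_zero]

theorem br_bd : br l b (fun u => as a f (M u)) N + br l b M (fun u => as a f (N u)) =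
    as a f (br l b M N) + D (D a f) (br l b M N) + br l (as a f b) M N + br l (D (D a f) b) M N +
      (br l b (fun u => D (D a f) (M u)) N + br l b M (fun u => D (D a f) (N u))) := by
  rw [br, br, br, br, br, br, br, ← ev_as, ← ev_D, ← ev_add, ← ev_add, ← ev_add, ← ev_add,
    ← ev_add, ← ev_add]
  apply ev_congr; intro u v
  exact bd _ _ _ _ _

end

end MP6489b8.CT
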