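import Mathlib
import Pool.Agent.Lib.MP_6489b8_al.CT.Form

/-!
# Closed functions of lists
-/

namespace MP6489b8.CT

variable {A : Type*} [NonUnitalNonAssocRing A]

/-- Symmetric, additive and alternating at length `n`. -/
structure SymL (F : List A → A) (n : ℕ) : Prop where
  perm : ∀ xs ys : List A, xs.Perm ys → xs.length = n → F xs = F ys
  add : ∀ (a b : A) (xs : List A), xs.length + 1 = n →
    F ((a + b) :: xs) = F (a :: xs) + F (b :: xs)
  alt : ∀ (a : A) (xs : List A), xs.length + 2 = n → F (a :: a :: xs) = 0

/-- Moreover a derivation. -/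
structure DerL (F : List A → A) (n : ℕ) : Prop extends SymL F n where
  mul : ∀ (a b : A) (xs : List A), xs.length + 1 = n →
    F ((a * b) :: xs) = a * F (b :: xs) + b * F (a :: xs)

/-- Moreover commuting. -/
structure ClosedL (F : List A → A) (n : ℕ) : Prop extends DerL F n where
  comm : ∀ (c : A) (xs : List A), xs.length = n → D c (F xs) = 0

omit [NonUnitalNonAssocRing A] in
theorem perm_of_adj (F : List A → A) (n : ℕ)
    (h : ∀ (us : List A) (a b : A) (vs : List A), us.length + vs.length + 2 = n →
      F (us ++ a :: b :: vs) = F (us ++ b :: a :: vs)) :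
    ∀ xs ys : List A, xs.Perm ys → xs.length = n → F xs = F ys := by
  have key : ∀ xs ys : List A, xs.Perm ys → ∀ us : List A, us.length + xs.length = n →
      F (us ++ xs) = F (us ++ ys) := by
    intro xs ys hp
    induction hp with
    | nil => intro us _; rfl
    | cons x _ ih =>
      intro us hl
      have := ih (us ++ [x]) (by simp at hl ⊢; omega)
      simpa using this
    | swap x y l => intro us hl; exact h us y x l (by simp at hl; omega)
    | trans h1 _ ih1 ih2 =>
      intro us hl
      rw [ih1 us hl]
      exact ih2 us (by rw [← h1.length_eq]; exact hl)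
  intro xs ys hp hl
  exact key xs ys hp [] (by simpa using hl)

omit [NonUnitalNonAssocRing A] in
theorem perm_of_two (F : List A → A) (n : ℕ)
    (h12 : ∀ (a b : A) (xs : List A), xs.length + 2 = n → F (a :: b :: xs) = F (b :: a :: xs))
    (ht : ∀ (a : A) (xs ys : List A), xs.Perm ys → xs.length + 1 = n →
      F (a :: xs) = F (a :: ys)) :
    ∀ xs ys : List A, xs.Perm ys → xs.length = n → F xs = F ys := by
  apply perm_of_adj
  intro us a b vs hl
  match us with
  | [] => exact h12 a b vs (by simpa using hl)
  | d :: us =>
    refine ht d _ _ ?_ (by simp at hl ⊢; omega)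
    exact List.Perm.append_left us (List.Perm.swap b a vs)

namespace SymL

variable {F : List A → A} {n : ℕ} (h : SymL F n)
include h

theorem sw (a b : A) (xs : List A) (hx : xs.length + 2 = n) : F (a :: b :: xs) = F (b :: a :: xs) :=
  h.perm _ _ (List.Perm.swap b a xs) (by simpa using hx)

end SymL

section

variable [Alt2 A]

theorem polar (G : A → A → A) (h1 : ∀ a a' b, G (a + a') b = G a b + G a' b)
    (h2 : ∀ a b b', G a (b + b') = G a b + G a b') (h0 : ∀ a, G a a = 0) (a b : A) :
    G a b = G b a := by
  have h := h0 (a + b)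
  rw [h1, h2, h2, h0, h0, zero_add, add_zero] at h
  exact eq_of_add h

namespace DerL

variable {F : List A → A} {n : ℕ} (h : DerL F n)
include h

theorem zD (a b : A) (xs : List A) (hx : xs.length + 1 = n) : F (D a b :: xs) = 0 := by
  rw [D, h.add _ _ _ hx, h.mul _ _ _ hx, h.mul _ _ _ hx, add_comm (b * F (a :: xs)), two]

theorem zsq (a : A) (xs : List A) (hx : xs.length + 1 = n) : F (a * a :: xs) = 0 := by
  rw [h.mul _ _ _ hx, two]

theorem as_exp (a b c : A) (xs : List A) (hx : xs.length + 1 = n) :
    F (as a b c :: xs) = as a b (F (c :: xs)) + as b c (F (a :: xs)) + D a c * F (b :: xs) +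
      D b c * F (a :: xs) := by
  have h1 : as c a (F (b :: xs)) + as a c (F (b :: xs)) = 0 := by rw [as12, two]
  have h2 : as c b (F (a :: xs)) + as b c (F (a :: xs)) = 0 := by rw [as12, two]
  have h3 : F (as a b c :: xs) = a * b * F (c :: xs) + c * (a * F (b :: xs) + b * F (a :: xs)) +
      (a * (b * F (c :: xs) + c * F (b :: xs)) + b * c * F (a :: xs)) := by
    rw [as, h.add _ _ _ hx, h.mul _ _ _ hx, h.mul _ _ _ hx, h.mul _ _ _ hx, h.mul _ _ _ hx]
  rw [h3]
  generalize F (a :: xs) = x at *
  generalize F (b :: xs) = y at *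
  generalize F (c :: xs) = z at *
  apply eq_of_add
  rw [← add_zero (0 : A)]
  nth_rewrite 1 [← h1]
  rw [← h2]
  apply eq_of_add
  simp only [D, as, mul_add, add_mul]
  abel_nf
  simp only [twoZ, fourZ, add_zero]

theorem asF (a b c : A) (xs : List A) (hx : xs.length + 1 = n) :
    as b c (F (a :: xs)) = as a c (F (b :: xs)) := by
  have h1 := h.as_exp a b c xs hx
  have h2 := h.as_exp b a c xs hx
  rw [as12 a b c, h2, as12 b a (F (c :: xs))] at h1
  have h3 := add_of_eq h1
  apply eq_of_add
  rw [← h3]
  apply eq_of_add
  abel_nf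
  simp only [twoZ, add_zero]

theorem asF' (a b c : A) (xs : List A) (hx : xs.length + 1 = n) :
    as a b (F (c :: xs)) = as a c (F (b :: xs)) := by
  rw [as12 a b, h.asF c b a xs hx, as12 c a]

theorem DF (a b c : A) (xs : List A) (hx : xs.length + 1 = n) :
    D a c * F (b :: xs) = D a b * F (c :: xs) := by
  have h1 := h.as_exp a b c xs hx
  have h2 := h.as_exp a c b xs hx
  rw [as23 a b c, h2, as12 c b (F (a :: xs)), D_comm c b, h.asF' a c b xs hx] at h1
  have h3 := add_of_eq h1
  apply eq_of_add
  rw [← h3]
  apply eq_of_add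
  abel_nf
  simp only [twoZ, add_zero]

theorem DF' (a b c : A) (xs : List A) (hx : xs.length + 1 = n) :
    D a b * F (c :: xs) = D b c * F (a :: xs) := by
  rw [D_comm a b, h.DF b c a xs hx]

theorem zas (a b c : A) (xs : List A) (hx : xs.length + 1 = n) : F (as a b c :: xs) = 0 := by
  rw [h.as_exp a b c xs hx, as12 a b, h.asF' b a c xs hx, two, zero_add, h.DF a b c xs hx,
    ← h.DF' a b c xs hx, two]

end DerL

namespace ClosedL

variable {F : List A → A} {n : ℕ} (h : ClosedL F n)
include h

theorem nuc3 (a b : A) (xs : List A) (hx : xs.length = n) : as a b (F xs) = 0 := by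
  rw [nuc, h.comm _ _ hx, h.comm _ _ hx, h.comm _ _ hx, mul_zero, zero_mul, add_zero, add_zero]

theorem mulc (a : A) (xs : List A) (hx : xs.length = n) : F xs * a = a * F xs := by
  have := h.comm a xs hx
  rw [D] at this
  exact (eq_of_add this).symm

end ClosedL

end

/-! ### Words -/

theorem DW_append (us vs : List A) (u : A) : DW (us ++ vs) u = DW us (DW vs u) := by
  induction us with
  | nil => rfl
  | cons a us ih => show D a (DW (us ++ vs) u) = D a (DW us (DW vs u)); rw [ih]

theorem DW_add (us : List A) (x y : A) : DW us (x + y) = DW us x + DW us y := by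
  induction us with
  | nil => rfl
  | cons a us ih =>
    show D a (DW us (x + y)) = D a (DW us x) + D a (DW us y)
    rw [ih, D_add2]

theorem DW_zero (us : List A) : DW us (0 : A) = 0 := by
  induction us with
  | nil => rfl
  | cons a us ih => show D a (DW us 0) = 0; rw [ih, D_zero2]

/-- The first family of functions. -/
def TT (l : List (A × A)) : List A → A
  | d :: e :: ms => pr l (DW ms) (as d e)
  | _ => 0

/-- The family with the pairing reversed. -/
def TP (l : List (A × A)) : List A → A
  | d :: e :: ms => pr l (as d e) (DW ms)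
  | _ => 0

/-- The braces. -/
def LL (l : List (A × A)) : List A → A
  | x :: f :: d :: ms => br l x (DW ms) (as f d)
  | _ => 0

/-- The initial conditions. -/
structure Base (l : List (A × A)) : Prop where
  b1 : ∀ a b c, pr l (D c) (as a b) = 0
  b2 : ∀ a b c, pr l (as a b) (D c) = 0
  b0 : ∀ a b c, br l c (fun u => u) (as a b) = 0
  b3 : ev l (fun u v => u * v) = 0

/-- All iterated derivatives satisfy the initial conditions. -/
def HG (l : List (A × A)) : Prop := ∀ es : List A, Base (es.foldr der l)

theorem HG.base {l : List (A × A)} (h : HG l) : Base l := h []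

theorem HG.der {l : List (A × A)} (h : HG l) (e : A) : HG (der e l) := by
  intro es
  have := h (es ++ [e])
  rwa [List.foldr_append] at this

end MP6489b8.CT
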