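import Mathlib
import Pool.Agent.Lib.MP_6489b8_al.CT.Base

/-!
# Symmetry of the functions, and the functions `LL` and `Lam`
-/

namespace MP6489b8.CT

variable {A : Type*} [NonUnitalNonAssocRing A]

omit [NonUnitalNonAssocRing A] in
theorem pm {xs ys : List A} (h : (xs : Multiset A) = ys) : xs.Perm ys := Multiset.coe_eq_coe.1 h

theorem TT_cc (l : List (A × A)) (d e : A) (ms : List A) :
    TT l (d :: e :: ms) = pr l (DW ms) (as d e) := rfl

theorem TP_cc (l : List (A × A)) (d e : A) (ms : List A) :
    TP l (d :: e :: ms) = pr l (as d e) (DW ms) := rfl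

theorem LL_cc (l : List (A × A)) (x f d : A) (ms : List A) :
    LL l (x :: f :: d :: ms) = br l x (DW ms) (as f d) := rfl

variable [Alt2 A]

theorem DW_swap (us : List A) (a b : A) (vs : List A) (u : A) :
    DW (us ++ a :: b :: vs) u = DW (us ++ b :: a :: vs) u + DW (us ++ D a b :: vs) u := by
  rw [DW_append, DW_append, DW_append, ← DW_add]
  congr 1
  show D a (D b (DW vs u)) = D b (D a (DW vs u)) + D (D a b) (DW vs u)
  rw [← jac]
  apply eq_of_add
  abel_nf
  simp only [twoZ, add_zero]

theorem TT_sq (l : List (A × A)) (n : ℕ) (hT : DerL (TT l) n) (d e : A) (ms : List A)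
    (hl : ms.length + 2 = n) : pr l (fun u => D e (DW ms u)) (as d e) = 0 := by
  have h1 : pr l (DW ms) (fun u => e * as d e u) = TT l (e :: (d * e) :: ms) := by
    rw [TT_cc]
    apply pr_congr
    · intro u; rfl
    · intro u; rw [as12 d e u, mulL]
  rw [pr_D, h1, ← TT_cc, hT.sw e (d * e) ms (by omega), hT.mul d e (e :: ms) (by simpa using hl),
    hT.alt e ms (by omega), mul_zero, zero_add, hT.sw d e ms (by omega), two]

/-- Step A. -/
theorem stepA (l : List (A × A)) (n : ℕ) (hT : DerL (TT l) n) (hn : 2 ≤ n) :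
    SymL (TT l) (n + 1) where
  perm := by
    apply perm_of_adj
    intro us a b vs hl
    match us with
    | [] =>
      show pr l (DW vs) (as a b) = pr l (DW vs) (as b a)
      exact pr_congr l (fun _ => rfl) (fun u => as12 a b u)
    | [d] =>
      refine polar (fun a b => TT l ([d] ++ a :: b :: vs)) ?_ ?_ ?_ a b
      · intro a a' b
        show pr l (DW (b :: vs)) (as d (a + a')) = _
        rw [pr_congr l (fun _ => rfl) (fun u => as_add2 d a a' u), pr_add2]
        rfl
      · intro a b b'
        show pr l (DW ((b + b') :: vs)) (as d a) = _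
        rw [pr_congr l (M := DW ((b + b') :: vs)) (M' := fun u => DW (b :: vs) u + DW (b' :: vs) u)
          (fun u => D_add1 b b' _) (fun u => rfl), pr_add1]
        rfl
      · intro a
        exact TT_sq l n hT d a vs (by simp at hl; omega)
    | d :: e :: us =>
      show pr l (DW (us ++ a :: b :: vs)) (as d e) = pr l (DW (us ++ b :: a :: vs)) (as d e)
      rw [pr_congr l (fun u => DW_swap us a b vs u) (fun u => rfl), pr_add1]
      have h1 : pr l (DW (us ++ D a b :: vs)) (as d e) = TT l (D a b :: (us ++ d :: e :: vs)) := by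
        show TT l (d :: e :: (us ++ D a b :: vs)) = _
        refine hT.perm _ _ (pm ?_) (by simp at hl ⊢; omega)
        simp only [← Multiset.cons_coe, ← Multiset.coe_add, ← Multiset.singleton_add]
        abel
      rw [h1, hT.zD a b _ (by simp at hl ⊢; omega), add_zero]
  add := by
    intro a b xs hl
    match xs with
    | [] => simp at hl; omega
    | e :: ms =>
      rw [TT_cc, TT_cc, TT_cc, pr_congr l (fun _ => rfl) (fun u => as_add1 a b e u), pr_add2]
  alt := by
    intro a xs _
    rw [TT_cc, pr_congr l (fun _ => rfl) (fun u => as_self12 a u), pr_zero2]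

/-- The functions `Lam`. -/
def Lam (l : List (A × A)) : List A → A
  | x :: xs => LL l (x :: xs) + D x (TT l xs)
  | _ => 0

omit [Alt2 A] in
theorem Lam_c (l : List (A × A)) (x : A) (xs : List A) :
    Lam l (x :: xs) = LL l (x :: xs) + D x (TT l xs) := rfl

theorem Lam_self (l : List (A × A)) (n : ℕ) (hT : DerL (TT l) n) (d e : A) (ms : List A)
    (hl : ms.length + 2 = n) : Lam l (d :: d :: e :: ms) = 0 := by
  have h1 : pr l (DW ms) (fun u => as d e u * d) = TT l (d :: (d * e) :: ms) := by
    rw [TT_cc]
    exact pr_congr l (fun _ => rfl) (fun u => mulR d e u)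
  have h2 := pr_R l (DW ms) (as d e) d
  rw [h1, ← TT_cc, hT.sw d (d * e) ms hl, hT.mul d e (d :: ms) (by simpa using hl),
    hT.alt d ms hl, mul_zero, add_zero, hT.sw e d ms hl, ← LL_cc] at h2
  have h3 := add_of_eq h2
  rw [Lam_c, D, ← h3]
  abel

theorem Lam_sw (l : List (A × A)) (n : ℕ) (hT : DerL (TT l) n) (x d e : A) (ms : List A)
    (hl : ms.length + 2 = n) : Lam l (x :: d :: e :: ms) = Lam l (d :: x :: e :: ms) := by
  refine polar (fun x d => Lam l (x :: d :: e :: ms)) ?_ ?_ ?_ x d
  · intro a a' b
    show Lam l ((a + a') :: b :: e :: ms) = Lam l (a :: b :: e :: ms) + Lam l (a' :: b :: e :: ms)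
    rw [Lam_c, Lam_c, Lam_c, LL_cc, LL_cc, LL_cc, br_add1, D_add1]
    abel
  · intro a b b'
    show Lam l (a :: (b + b') :: e :: ms) = Lam l (a :: b :: e :: ms) + Lam l (a :: b' :: e :: ms)
    rw [Lam_c, Lam_c, Lam_c, LL_cc, LL_cc, LL_cc,
      br_congr l a (fun _ => rfl) (fun u => as_add1 b b' e u), br_add3,
      hT.add b b' (e :: ms) (by simpa using hl), D_add2]
    abel
  · intro a
    exact Lam_self l n hT a e ms hl

/-- The second slot of the identity KEY. -/
theorem pr_key (l : List (A × A)) (n : ℕ) (hT : DerL (TT l) n) (a b c : A) (ms : List A)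
    (hl : ms.length + 2 = n) :
    pr l (DW ms) (fun u => as a b (D c u)) = TT l (a :: c :: b :: ms) +
      Lam l (a :: b :: c :: ms) := by
  have hk : TT l ((a * b) :: c :: ms) = pr l (DW ms) (fun u => b * as a c u) +
      pr l (DW ms) (fun u => as b c u * a) + TT l (D a b :: c :: ms) +
      pr l (DW ms) (fun u => as a b (D c u)) := by
    rw [TT_cc, TT_cc, ← pr_add2, ← pr_add2, ← pr_add2]
    exact pr_congr l (fun _ => rfl) (fun u => key a b c u)
  have h1 : pr l (DW ms) (fun u => b * as a c u) = b * TT l (a :: c :: ms) +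
      TT l (a :: c :: b :: ms) := by
    have h := pr_D l (DW ms) (as a c) b
    have h' : TT l (a :: c :: b :: ms) = pr l (fun u => D b (DW ms u)) (as a c) := rfl
    rw [h', h, TT_cc, ← add_assoc, two, zero_add]
  have h2 : pr l (DW ms) (fun u => as b c u * a) = TT l (b :: c :: ms) * a +
      LL l (a :: b :: c :: ms) := pr_R l (DW ms) (as b c) a
  rw [h1, h2, hT.zD a b (c :: ms) (by simpa using hl), hT.mul a b (c :: ms) (by simpa using hl)]
    at hk
  have h3 := add_of_eq hk
  rw [Lam_c, D]
  apply eq_of_add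
  rw [← h3]
  apply eq_of_add
  abel_nf
  simp only [twoZ, add_zero]

theorem Lam_eq (l : List (A × A)) (n : ℕ) (hT : DerL (TT l) n) (hn : 2 ≤ n) (e : A)
    (xs : List A) (hl : xs.length = n) :
    Lam l (e :: xs) = TT (der e l) xs := by
  match xs with
  | [] => simp at hl; omega
  | [_] => simp at hl; omega
  | f :: d :: ms =>
    have hl' : ms.length + 2 = n := by simpa using hl
    have hS := stepA l n hT hn
    have h1 : TT (der e l) (f :: d :: ms) = TT l (f :: d :: (ms ++ [e])) +
        pr l (DW ms) (fun u => as f d (D e u)) := by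
      rw [TT_cc, pr_der, TT_cc]
      congr 1
      apply pr_congr
      · intro u; rw [DW_append]; rfl
      · intro u; rfl
    have h2 : TT l (f :: d :: (ms ++ [e])) = TT l (f :: e :: d :: ms) := by
      refine hS.perm _ _ (pm ?_) (by simp at hl ⊢; omega)
      simp only [← Multiset.cons_coe, ← Multiset.coe_add, ← Multiset.singleton_add,
        Multiset.coe_nil]
      abel
    rw [h1, h2, pr_key l n hT f d e ms hl', ← add_assoc, two, zero_add]
    rw [Lam_sw l n hT e f d ms hl']
    have hsw : ∀ x, Lam l (x :: f :: d :: ms) = Lam l (x :: d :: f :: ms) := by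
      intro x
      rw [Lam_c, Lam_c, hT.sw f d ms hl', LL_cc, LL_cc,
        br_congr l x (fun _ => rfl) (fun u => as12 f d u)]
    have hsw' : ∀ x, Lam l (f :: e :: x :: ms) = Lam l (f :: x :: e :: ms) := by
      intro x
      rw [Lam_c, Lam_c, hT.sw e x ms hl', LL_cc, LL_cc,
        br_congr l f (fun _ => rfl) (fun u => as12 e x u)]
    rw [hsw' d]

/-- `Lam` is a derivation. -/
theorem stepLam (l : List (A × A)) (n : ℕ) (hl : HG l)
    (hT : ∀ l' : List (A × A), HG l' → DerL (TT l') n) (hn : 2 ≤ n) :
    DerL (Lam l) (n + 1) := by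
  have hp : ∀ xs ys : List A, xs.Perm ys → xs.length = n + 1 → Lam l xs = Lam l ys := by
    apply perm_of_two
    · intro a b xs hx
      match xs with
      | [] => simp at hx; omega
      | e :: ms => exact Lam_sw l n (hT l hl) a b e ms (by simp at hx; omega)
    · intro a xs ys hp hx
      rw [Lam_eq l n (hT l hl) hn a xs (by omega),
        Lam_eq l n (hT l hl) hn a ys (by rw [← hp.length_eq]; omega)]
      exact (hT _ (hl.der a)).perm xs ys hp (by omega)
  refine ⟨⟨hp, ?_, ?_⟩, ?_⟩
  · intro a b xs hx
    match xs with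
    | [] => simp at hx; omega
    | [_] => simp at hx; omega
    | f :: d :: ms =>
      rw [Lam_c, Lam_c, Lam_c, LL_cc, LL_cc, LL_cc, br_add1, D_add1]
      abel
  · intro a xs hx
    match xs with
    | [] => simp at hx; omega
    | e :: ms => exact Lam_self l n (hT l hl) a e ms (by simp at hx; omega)
  · intro a b xs hx
    match xs with
    | [] => simp at hx; omega
    | c :: ms =>
      have h1 : ∀ z, Lam l (z :: c :: ms) = TT (der c l) (z :: ms) := by
        intro z
        rw [hp (z :: c :: ms) (c :: z :: ms) (List.Perm.swap c z ms) (by simpa using hx),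
          Lam_eq l n (hT l hl) hn c (z :: ms) (by simp at hx ⊢; omega)]
      rw [h1, h1, h1, (hT _ (hl.der c)).mul a b ms (by simp at hx; omega)]

/-- Step B. -/
theorem stepB (l : List (A × A)) (n : ℕ) (hl : HG l)
    (hT : ∀ l' : List (A × A), HG l' → ClosedL (TT l') n) (hn : 2 ≤ n) :
    ClosedL (LL l) (n + 1) := by
  have hL := stepLam l n hl (fun l' h' => (hT l' h').toDerL) hn
  have he : ∀ xs : List A, xs.length = n + 1 → LL l xs = Lam l xs := by
    intro xs hx
    match xs with
    | [] => simp at hx
    | x :: xs => rw [Lam_c, (hT l hl).comm x xs (by simpa using hx), add_zero]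
  refine ⟨⟨⟨?_, ?_, ?_⟩, ?_⟩, ?_⟩
  · intro xs ys hp hx
    rw [he xs hx, he ys (by rw [← hp.length_eq]; exact hx)]
    exact hL.perm xs ys hp hx
  · intro a b xs hx
    rw [he _ (by simpa using hx), he _ (by simpa using hx), he _ (by simpa using hx)]
    exact hL.add a b xs hx
  · intro a xs hx
    rw [he _ (by simpa using hx)]
    exact hL.alt a xs hx
  · intro a b xs hx
    rw [he _ (by simpa using hx), he _ (by simpa using hx), he _ (by simpa using hx)]
    exact hL.mul a b xs hx
  · intro c xs hx
    match xs with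
    | [] => simp at hx
    | e :: xs =>
      rw [he _ hx, Lam_eq l n (hT l hl).toDerL hn e xs (by simpa using hx)]
      exact (hT _ (hl.der e)).comm c xs (by simpa using hx)

/-- The operator `Z`. -/
def Z (b a u : A) : A := D b (D a u) + as a b u

/-- The first formula of Step C. -/
theorem stepC1 (l : List (A × A)) (a b d e : A) (ms : List A)
    (hL : ∀ c x, D c (LL l (x :: d :: e :: ms)) = 0) :
    TT l (d :: e :: (a * b) :: ms) + a * TT l (d :: e :: b :: ms) + b * TT l (d :: e :: a :: ms) =
      pr l (fun u => Z b a (DW ms u)) (as d e) := by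
  have h1 : TT l (d :: e :: (a * b) :: ms) = pr l (fun u => a * D b (DW ms u)) (as d e) +
      pr l (fun u => b * D a (DW ms u)) (as d e) + pr l (fun u => Z b a (DW ms u)) (as d e) := by
    rw [TT_cc, ← pr_add1, ← pr_add1]
    apply pr_congr
    · intro u
      show D (a * b) (DW ms u) = _
      rw [D_mul, Z]; abel
    · intro u; rfl
  have h2 := pr_L l (fun u => D b (DW ms u)) (as d e) a
  have h3 := pr_L l (fun u => D a (DW ms u)) (as d e) b
  have h4 := br_mo l (DW ms) (as d e) a b
  rw [← LL_cc, ← LL_cc, hL, hL, add_zero] at h4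
  rw [h1, h2, h3]
  have h5 : TT l (d :: e :: b :: ms) = pr l (fun u => D b (DW ms u)) (as d e) := rfl
  have h6 : TT l (d :: e :: a :: ms) = pr l (fun u => D a (DW ms u)) (as d e) := rfl
  rw [h5, h6]
  apply eq_of_add
  rw [← h4]
  apply eq_of_add
  abel_nf
  simp only [twoZ, add_zero]

end MP6489b8.CT
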