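import Mathlib
import Pool.Agent.Lib.MP_6489b8_al.CT.StepAB

/-!
# Step C: the functions are derivations
-/

namespace MP6489b8.CT

variable {A : Type*} [NonUnitalNonAssocRing A] [Alt2 A]

theorem TT_swr (l : List (A × A)) (d e : A) (us : List A) (a b : A) (vs : List A) :
    TT l (d :: e :: (us ++ a :: b :: vs)) = TT l (d :: e :: (us ++ b :: a :: vs)) +
      TT l (d :: e :: (us ++ D a b :: vs)) := by
  rw [TT_cc, TT_cc, TT_cc, ← pr_add1]
  exact pr_congr l (fun u => DW_swap us a b vs u) (fun u => rfl)

section

variable (l : List (A × A)) (m : ℕ) (hT : ClosedL (TT l) m) (hS : SymL (TT l) (m + 1))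
  (hL : ClosedL (LL l) (m + 1)) (ms : List A) (hm : ms.length + 3 = m)
include hm

include hL in
theorem stepC2 (x y z d e : A) :
    br l x (fun u => D y (D z (DW ms u))) (as d e) =
      br l y (fun u => D x (D z (DW ms u))) (as d e) := by
  have h := br_mo l (fun u => D z (DW ms u)) (as d e) x y
  have h1 : ∀ t : A, br l t (fun u => D z (DW ms u)) (as d e) = LL l (t :: d :: e :: z :: ms) :=
    fun _ => rfl
  rw [h1 x, h1 y, hL.comm _ _ (by simp; omega), hL.comm _ _ (by simp; omega), add_zero] at h
  exact eq_of_add h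

include hL in
theorem stepC2' (x y z d e : A) :
    br l x (fun u => D y (D z (DW ms u))) (as d e) =
      br l x (fun u => D z (D y (DW ms u))) (as d e) := by
  have h : br l x (fun u => D y (D z (DW ms u))) (as d e) =
      br l x (fun u => D z (D y (DW ms u))) (as d e) + LL l (x :: d :: e :: D y z :: ms) := by
    rw [LL_cc, ← br_add2]
    exact br_congr l x (fun u => DW_swap [] y z ms u) (fun u => rfl)
  have h1 : LL l (x :: d :: e :: D y z :: ms) = LL l (D y z :: x :: d :: e :: ms) := by
    refine hL.perm _ _ (pm ?_) (by simp; omega)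
    simp only [← Multiset.cons_coe, ← Multiset.singleton_add]
    abel
  rw [h, h1, hL.zD y z _ (by simp; omega), add_zero]

include hT hS hL in
theorem stepC3 (a b c d e : A) :
    pr l (fun u => as a b (D c (DW ms u))) (as d e) +
      pr l (fun u => as b c (D a (DW ms u))) (as d e) =
    TT l (d :: e :: D b c :: a :: ms) + TT l (d :: e :: c :: D a b :: ms) := by
  have h1 : TT l (d :: e :: b :: (a * c) :: ms) =
      pr l (fun u => a * D b (D c (DW ms u))) (as d e) +
      pr l (fun u => D a b * D c (DW ms u)) (as d e) +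
      pr l (fun u => as a b (D c (DW ms u))) (as d e) +
      pr l (fun u => c * D b (D a (DW ms u))) (as d e) +
      pr l (fun u => D c b * D a (DW ms u)) (as d e) +
      pr l (fun u => as b c (D a (DW ms u))) (as d e) +
      TT l (d :: e :: b :: c :: a :: ms) +
      pr l (fun u => as a c (D b (DW ms u))) (as d e) +
      TT l (d :: e :: as a c b :: ms) := by
    rw [TT_cc, TT_cc, TT_cc, ← pr_add1, ← pr_add1, ← pr_add1, ← pr_add1, ← pr_add1, ← pr_add1,
      ← pr_add1, ← pr_add1]
    apply pr_congr
    · intro u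
      show D b (D (a * c) (DW ms u)) = a * D b (D c (DW ms u)) + D a b * D c (DW ms u) +
        as a b (D c (DW ms u)) + c * D b (D a (DW ms u)) + D c b * D a (DW ms u) +
        as b c (D a (DW ms u)) + D b (D c (D a (DW ms u))) + as a c (D b (DW ms u)) +
        D (as a c b) (DW ms u)
      rw [D_mul a c, D_add2, D_add2, D_add2, D_Lmul, D_Lmul, D_rho, as12 c b]
      abel
    · intro u; rfl
  have e1 := pr_L l (fun u => D b (D c (DW ms u))) (as d e) a
  have e2 := pr_L l (fun u => D c (DW ms u)) (as d e) (D a b)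
  have e3 := pr_L l (fun u => D b (D a (DW ms u))) (as d e) c
  have e4 := pr_L l (fun u => D a (DW ms u)) (as d e) (D c b)
  have t1 : pr l (fun u => D b (D c (DW ms u))) (as d e) = TT l (d :: e :: b :: c :: ms) := rfl
  have t2 : pr l (fun u => D c (DW ms u)) (as d e) = TT l (d :: e :: c :: ms) := rfl
  have t3 : pr l (fun u => D b (D a (DW ms u))) (as d e) = TT l (d :: e :: b :: a :: ms) := rfl
  have t4 : pr l (fun u => D a (DW ms u)) (as d e) = TT l (d :: e :: a :: ms) := rfl
  have z1 : br l (D a b) (fun u => D c (DW ms u)) (as d e) = 0 :=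
    hL.zD a b (d :: e :: c :: ms) (by simp; omega)
  have z2 : br l (D c b) (fun u => D a (DW ms u)) (as d e) = 0 :=
    hL.zD c b (d :: e :: a :: ms) (by simp; omega)
  have z3 : TT l (d :: e :: as a c b :: ms) = 0 := by
    have : TT l (d :: e :: as a c b :: ms) = TT l (as a c b :: d :: e :: ms) := by
      refine hT.perm _ _ (pm ?_) (by simp; omega)
      simp only [← Multiset.cons_coe, ← Multiset.singleton_add]
      abel
    rw [this, hT.zas a c b _ (by simp; omega)]
  have c2 := stepC2 l m hL ms hm a c b d e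
  rw [stepC2' l m hL ms hm a c b, stepC2' l m hL ms hm c a b] at c2
  have f1 : D a b * TT l (d :: e :: c :: ms) + D c b * TT l (d :: e :: a :: ms) = 0 := by
    have p1 : TT l (d :: e :: c :: ms) = TT l (c :: d :: e :: ms) := by
      refine hT.perm _ _ (pm ?_) (by simp; omega)
      simp only [← Multiset.cons_coe, ← Multiset.singleton_add]
      abel
    have p2 : TT l (d :: e :: a :: ms) = TT l (a :: d :: e :: ms) := by
      refine hT.perm _ _ (pm ?_) (by simp; omega)
      simp only [← Multiset.cons_coe, ← Multiset.singleton_add]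
      abel
    rw [p1, p2, D_comm a b, D_comm c b, hT.DF b c a _ (by simp; omega), two]
  have g1 := stepC1 l a c d e (b :: ms) (fun x y => hL.comm _ _ (by simp; omega))
  have g2 : pr l (fun u => Z c a (DW (b :: ms) u)) (as d e) =
      TT l (d :: e :: c :: a :: b :: ms) + pr l (fun u => as a c (D b (DW ms u))) (as d e) := by
    rw [TT_cc, ← pr_add1]
    exact pr_congr l (fun u => rfl) (fun u => rfl)
  have s1 : TT l (d :: e :: b :: (a * c) :: ms) = TT l (d :: e :: (a * c) :: b :: ms) := by
    refine hS.perm _ _ (pm ?_) (by simp; omega)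
    simp only [← Multiset.cons_coe, ← Multiset.singleton_add]
    abel
  have s2 : TT l (d :: e :: b :: c :: ms) = TT l (d :: e :: c :: b :: ms) := by
    refine hS.perm _ _ (pm ?_) (by simp; omega)
    simp only [← Multiset.cons_coe, ← Multiset.singleton_add]
    abel
  have s3 : TT l (d :: e :: b :: a :: ms) = TT l (d :: e :: a :: b :: ms) := by
    refine hS.perm _ _ (pm ?_) (by simp; omega)
    simp only [← Multiset.cons_coe, ← Multiset.singleton_add]
    abel
  have w1 := TT_swr l d e [] b c (a :: ms)
  have w2 := TT_swr l d e [c] a b ms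
  simp only [List.nil_append, List.cons_append] at w1 w2
  rw [e1, e2, e3, e4, t1, t2, t3, t4, z1, z2, z3, s1, s2, s3, c2, w1] at h1
  rw [g2, w2] at g1
  refine lin3 f1 h1 g1 ?_
  abel_nf
  simp only [twoZ, add_zero]

include hT hS hL in
theorem stepC4 (hZ : ∀ a b x y : A, pr l (fun u => Z b a (DW ms u)) (as x y) = 0)
    (hZ' : ∀ e a b x y : A, pr (der e l) (fun u => Z b a (DW ms u)) (as x y) = 0)
    (a b c d e : A) :
    br l d (fun u => Z b a (DW ms u)) (as c e) =
      TT l (d :: e :: D b c :: a :: ms) + TT l (d :: e :: D a c :: b :: ms) := by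
  have k1 := pr_D l (fun u => Z b a (DW ms u)) (as d e) c
  rw [hZ, mul_zero, zero_add] at k1
  have k2 : pr l (fun u => Z b a (DW ms u)) (as (d * c) e) =
      pr l (fun u => Z b a (DW ms u)) (fun u => c * as d e u) +
      pr l (fun u => Z b a (DW ms u)) (fun u => as c e u * d) +
      pr l (fun u => Z b a (DW ms u)) (as (D d c) e) +
      pr l (fun u => Z b a (DW ms u)) (fun u => as d c (D e u)) := by
    rw [← pr_add2, ← pr_add2, ← pr_add2]
    exact pr_congr l (fun _ => rfl) (fun u => key d c e u)
  rw [hZ, hZ, ← k1, pr_R, hZ, zero_mul, zero_add, add_zero] at k2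
  have k3 := hZ' e a b d c
  rw [pr_der] at k3
  have k4 : pr l (fun u => Z b a (DW ms (D e u))) (as d c) =
      pr l (fun u => Z b a (DW (ms ++ [e]) u)) (as d c) := by
    apply pr_congr
    · intro u; rw [DW_append]; rfl
    · intro u; rfl
  have k5 := stepC1 l a b d c (ms ++ [e]) (fun x y => hL.comm _ _ (by simp; omega))
  rw [k4, ← k5] at k3
  have k6 : pr l (fun u => D c (Z b a (DW ms u))) (as d e) =
      pr l (fun u => Z b a (DW (c :: ms) u)) (as d e) + TT l (d :: e :: D b c :: a :: ms) +
      TT l (d :: e :: b :: D a c :: ms) + TT l (d :: e :: as a b c :: ms) := by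
    rw [TT_cc, TT_cc, TT_cc, ← pr_add1, ← pr_add1, ← pr_add1]
    apply pr_congr
    · intro u
      show D c (D b (D a (DW ms u)) + as a b (DW ms u)) = D b (D a (D c (DW ms u))) +
        as a b (D c (DW ms u)) + D (D b c) (D a (DW ms u)) + D b (D (D a c) (DW ms u)) +
        D (as a b c) (DW ms u)
      rw [D_add2, D_rho, ← jac b c, ← jac a c, D_add2]
      apply eq_of_add
      abel_nf
      simp only [twoZ, add_zero]
    · intro u; rfl
  have k7 := stepC1 l a b d e (c :: ms) (fun x y => hL.comm _ _ (by simp; omega))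
  rw [← k7] at k6
  have z3 : TT l (d :: e :: as a b c :: ms) = 0 := by
    have : TT l (d :: e :: as a b c :: ms) = TT l (as a b c :: d :: e :: ms) := by
      refine hT.perm _ _ (pm ?_) (by simp; omega)
      simp only [← Multiset.cons_coe, ← Multiset.singleton_add]
      abel
    rw [this, hT.zas a b c _ (by simp; omega)]
  have s1 : ∀ z, TT l (d :: c :: z :: (ms ++ [e])) = TT l (d :: e :: z :: c :: ms) := by
    intro z
    refine hS.perm _ _ (pm ?_) (by simp; omega)
    simp only [← Multiset.cons_coe, ← Multiset.coe_add, ← Multiset.singleton_add,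
      Multiset.coe_nil]
    abel
  have s2 : TT l (d :: e :: b :: D a c :: ms) = TT l (d :: e :: D a c :: b :: ms) := by
    refine hS.perm _ _ (pm ?_) (by simp; omega)
    simp only [← Multiset.cons_coe, ← Multiset.singleton_add]
    abel
  rw [s1, s1, s1] at k3
  rw [s2] at k6
  refine lin4 k2 k3 k6 z3 ?_
  abel_nf
  simp only [twoZ, add_zero]

include hT hS hL in
theorem stepC5 (hZ : ∀ a b x y : A, pr l (fun u => Z b a (DW ms u)) (as x y) = 0)
    (hZ' : ∀ e a b x y : A, pr (der e l) (fun u => Z b a (DW ms u)) (as x y) = 0)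
    (a b c d e : A) :
    TT l (d :: e :: (a * b) :: c :: ms) + a * TT l (d :: e :: b :: c :: ms) +
      b * TT l (d :: e :: a :: c :: ms) = TT l (d :: e :: D a c :: b :: ms) := by
  have hr : ∀ x y : A, pr l (fun u => as x y (DW ms u)) (as d e) =
      TT l (d :: e :: y :: x :: ms) := by
    intro x y
    have h := hZ x y d e
    have h' : pr l (fun u => Z y x (DW ms u)) (as d e) = TT l (d :: e :: y :: x :: ms) +
        pr l (fun u => as x y (DW ms u)) (as d e) := by
      rw [TT_cc, ← pr_add1]
      exact pr_congr l (fun u => rfl) (fun u => rfl)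
    rw [h'] at h
    exact (eq_of_add h).symm
  have k1 : pr l (fun u => as (a * b) c (DW ms u)) (as d e) =
      pr l (fun u => b * as a c (DW ms u)) (as d e) +
      pr l (fun u => as b c (DW ms u) * a) (as d e) +
      pr l (fun u => as (D a b) c (DW ms u)) (as d e) +
      pr l (fun u => as a b (D c (DW ms u))) (as d e) := by
    rw [← pr_add1, ← pr_add1, ← pr_add1]
    exact pr_congr l (fun u => key a b c _) (fun u => rfl)
  have k2 := pr_L l (fun u => as a c (DW ms u)) (as d e) b
  have k3 : pr l (fun u => as b c (DW ms u) * a) (as d e) =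
      pr l (fun u => a * as b c (DW ms u)) (as d e) +
      pr l (fun u => as b c (D a (DW ms u))) (as d e) + TT l (d :: e :: as b c a :: ms) := by
    rw [TT_cc, ← pr_add1, ← pr_add1]
    apply pr_congr
    · intro u
      show as b c (DW ms u) * a = a * as b c (DW ms u) + as b c (D a (DW ms u)) +
        D (as b c a) (DW ms u)
      have h := D_rho b c a (DW ms u)
      rw [add_assoc, ← h, D]
      rw [← add_assoc, two, zero_add]
    · intro u; rfl
  have k4 := pr_L l (fun u => as b c (DW ms u)) (as d e) a
  have z3 : TT l (d :: e :: as b c a :: ms) = 0 := by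
    have : TT l (d :: e :: as b c a :: ms) = TT l (as b c a :: d :: e :: ms) := by
      refine hT.perm _ _ (pm ?_) (by simp; omega)
      simp only [← Multiset.cons_coe, ← Multiset.singleton_add]
      abel
    rw [this, hT.zas b c a _ (by simp; omega)]
  have c3 := stepC3 l m hT hS hL ms hm a b c d e
  have c4 := stepC4 l m hT hS hL ms hm hZ hZ'
  have q : ∀ x y z : A, br l z (fun u => as x y (DW ms u)) (as d e) =
      br l z (fun u => Z y x (DW ms u)) (as d e) +
      br l z (fun u => D y (D x (DW ms u))) (as d e) := by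
    intro x y z
    rw [← br_add2]
    apply br_congr
    · intro u
      show as x y (DW ms u) = D y (D x (DW ms u)) + as x y (DW ms u) + D y (D x (DW ms u))
      rw [add_comm (D y _ + _), ← add_assoc, two, zero_add]
    · intro u; rfl
  have c2 : br l b (fun u => D c (D a (DW ms u))) (as d e) =
      br l a (fun u => D c (D b (DW ms u))) (as d e) := by
    rw [stepC2' l m hL ms hm b c a, stepC2 l m hL ms hm b a c, stepC2' l m hL ms hm a b c]
  have s1 : ∀ x y : A, TT l (d :: e :: x :: y :: ms) = TT l (d :: e :: y :: x :: ms) := by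
    intro x y
    refine hS.perm _ _ (pm ?_) (by simp; omega)
    simp only [← Multiset.cons_coe, ← Multiset.singleton_add]
    abel
  have s2 : TT l (b :: e :: D c d :: a :: ms) = TT l (a :: e :: D c d :: b :: ms) := by
    refine hS.perm _ _ (pm ?_) (by simp; omega)
    simp only [← Multiset.cons_coe, ← Multiset.singleton_add]
    abel
  have s3 : TT l (b :: e :: D a d :: c :: ms) = TT l (e :: c :: D a d :: b :: ms) := by
    refine hS.perm _ _ (pm ?_) (by simp; omega)
    simp only [← Multiset.cons_coe, ← Multiset.singleton_add]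
    abel
  have s4 : TT l (a :: e :: D b d :: c :: ms) = TT l (e :: c :: D b d :: a :: ms) := by
    refine hS.perm _ _ (pm ?_) (by simp; omega)
    simp only [← Multiset.cons_coe, ← Multiset.singleton_add]
    abel
  have s5 : ∀ z w, TT l (e :: d :: z :: w :: ms) = TT l (d :: e :: z :: w :: ms) :=
    fun z w => hS.sw e d _ (by simp; omega)
  have c4a := c4 a c d b e
  have c4b := c4 b c d a e
  have c4c := c4 a b d e c
  have c4d := c4 a b c e d
  have c4e : br l e (fun u => Z b a (DW ms u)) (as c d) =
      br l e (fun u => Z b a (DW ms u)) (as d c) :=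
    br_congr l e (fun _ => rfl) (fun u => as12 c d u)
  rw [s5, s5] at c4d
  rw [c4c, c4d] at c4e
  rw [hr, k2, k3, k4, hr, hr, hr, z3, q a c b, q b c a, c4a, c4b, s2, s3, s4, c2] at k1
  rw [s1 c, s1 c, s1 c, s1 c] at k1
  rw [s1 c (D a b)] at c3
  rw [s1 b c, s1 a c, s1 c b, s1 c a]
  refine lin3 k1 c3 c4e ?_
  abel_nf
  simp only [twoZ, add_zero]

include hT hS hL in
theorem stepC_G (hZ : ∀ a b x y : A, pr l (fun u => Z b a (DW ms u)) (as x y) = 0)
    (hZ' : ∀ e a b x y : A, pr (der e l) (fun u => Z b a (DW ms u)) (as x y) = 0)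
    (a b c d e : A) : TT l (d :: e :: D a b :: c :: ms) = 0 := by
  have c5 := stepC5 l m hT hS hL ms hm hZ hZ'
  have gr : ∀ a b c d e : A, TT l (d :: e :: D a c :: b :: ms) =
      TT l (c :: e :: D a d :: b :: ms) := by
    intro a b c d e
    rw [← c5 a b c d e, ← c5 a b d c e]
    have s : ∀ z, TT l (d :: e :: z :: c :: ms) = TT l (c :: e :: z :: d :: ms) := by
      intro z
      refine hS.perm _ _ (pm ?_) (by simp; omega)
      simp only [← Multiset.cons_coe, ← Multiset.singleton_add]
      abel
    rw [s, s, s]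
  have h1 := c5 a b c d e
  have h2 := c5 b a c d e
  have h3 : TT l (d :: e :: D a b :: c :: ms) = TT l (d :: e :: (a * b) :: c :: ms) +
      TT l (d :: e :: (b * a) :: c :: ms) := by
    have s : ∀ z, TT l (d :: e :: z :: c :: ms) = TT l (z :: c :: d :: e :: ms) := by
      intro z
      refine hS.perm _ _ (pm ?_) (by simp; omega)
      simp only [← Multiset.cons_coe, ← Multiset.singleton_add]
      abel
    rw [s, s, s, D, hS.add _ _ _ (by simp; omega)]
  have h4 : TT l (d :: e :: D a c :: b :: ms) = TT l (d :: e :: D b c :: a :: ms) := by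
    have s : TT l (d :: e :: D a c :: b :: ms) = TT l (d :: e :: D c a :: b :: ms) := by
      rw [D_comm a c]
    have s1 : TT l (d :: e :: D c a :: b :: ms) = TT l (b :: e :: D c a :: d :: ms) := by
      refine hS.perm _ _ (pm ?_) (by simp; omega)
      simp only [← Multiset.cons_coe, ← Multiset.singleton_add]
      abel
    have s2 : TT l (a :: e :: D c b :: d :: ms) = TT l (d :: e :: D c b :: a :: ms) := by
      refine hS.perm _ _ (pm ?_) (by simp; omega)
      simp only [← Multiset.cons_coe, ← Multiset.singleton_add]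
      abel
    rw [s, s1, gr c d a b e, s2, D_comm c b]
  refine lin4 h1 h2 h3 h4 ?_
  abel_nf
  simp only [twoZ, add_zero]

end

omit [NonUnitalNonAssocRing A] [Alt2 A] in
theorem len4 (xs : List A) (m : ℕ) (h : xs.length = m + 3) :
    ∃ c d e ms, xs = c :: d :: e :: ms ∧ ms.length = m := by
  match xs with
  | [] => simp at h
  | [_] => simp at h
  | [_, _] => simp at h
  | c :: d :: e :: ms => exact ⟨c, d, e, ms, rfl, by simpa using h⟩

/-- Step C. -/
theorem stepC (l : List (A × A)) (k : ℕ) (hT : ClosedL (TT l) (k + 3))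
    (hS : SymL (TT l) (k + 4)) (hL : ClosedL (LL l) (k + 4))
    (hZ : ∀ ms : List A, ms.length = k → ∀ a b x y : A,
      pr l (fun u => Z b a (DW ms u)) (as x y) = 0)
    (hZ' : ∀ ms : List A, ms.length = k → ∀ e a b x y : A,
      pr (der e l) (fun u => Z b a (DW ms u)) (as x y) = 0) :
    DerL (TT l) (k + 4) ∧
    (∀ ms : List A, ms.length = k + 1 → ∀ a b x y : A,
      pr l (fun u => Z b a (DW ms u)) (as x y) = 0) ∧
    (∀ ms : List A, ms.length = k → ∀ a b x y z : A,
      br l z (fun u => Z b a (DW ms u)) (as x y) = 0) := by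
  have hG := fun (ms : List A) (hm : ms.length = k) =>
    stepC_G l (k + 3) hT hS hL ms (by omega) (hZ ms hm) (hZ' ms hm)
  have hD : DerL (TT l) (k + 4) := by
    refine ⟨hS, ?_⟩
    intro a b xs hx
    obtain ⟨c, d, e, ms, rfl, hm⟩ := len4 xs k (by omega)
    have h := stepC5 l (k + 3) hT hS hL ms (by omega) (hZ ms hm) (hZ' ms hm) a b c d e
    rw [hG ms hm] at h
    have s : ∀ z, TT l (z :: c :: d :: e :: ms) = TT l (d :: e :: z :: c :: ms) := by
      intro z
      refine hS.perm _ _ (pm ?_) (by simp; omega)
      simp only [← Multiset.cons_coe, ← Multiset.singleton_add]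
      abel
    rw [s, s, s]
    refine lin1 h ?_
    abel_nf
    simp only [twoZ, add_zero]
  refine ⟨hD, ?_, ?_⟩
  · intro ms hm a b x y
    rw [← stepC1 l a b x y ms (fun c z => hL.comm _ _ (by simp; omega))]
    have s : ∀ z, TT l (x :: y :: z :: ms) = TT l (z :: x :: y :: ms) := by
      intro z
      refine hS.perm _ _ (pm ?_) (by simp; omega)
      simp only [← Multiset.cons_coe, ← Multiset.singleton_add]
      abel
    rw [s, s, s, hD.mul a b _ (by simp; omega)]
    apply eq_of_add
    abel_nf
    simp only [twoZ, add_zero]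
  · intro ms hm a b x y z
    rw [stepC4 l (k + 3) hT hS hL ms (by omega) (hZ ms hm) (hZ' ms hm) a b x z y, hG ms hm,
      hG ms hm, add_zero]

end MP6489b8.CT
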