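import Mathlib
import Pool.Agent.Lib.MP_6489b8_al.CT.StepC

/-!
# Step D: the relation between the functions of level `n + 1`
-/

namespace MP6489b8.CT

variable {A : Type*} [NonUnitalNonAssocRing A]

/-- The induction hypotheses at level `n`. -/
structure Hi (A : Type*) [NonUnitalNonAssocRing A] (n : ℕ) : Prop where
  T : ∀ l : List (A × A), HG l → DerL (TT l) n
  L : ∀ l : List (A × A), HG l → ClosedL (LL l) n
  L0 : ∀ l : List (A × A), HG l → Even n → ∀ xs : List A, xs.length = n → LL l xs = 0
  P : ∀ l : List (A × A), HG l → ∀ xs : List A, xs.length = n → TP l xs = TT l xs + LL l xs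
  Q : ∀ l : List (A × A), HG l → ∀ (d e a b : A) (ms ns : List A),
    ms.length + ns.length + 4 = n →
    pr l (fun u => DW ms (as d e u)) (fun u => DW ns (as a b u)) =
      TT l (d :: e :: a :: b :: (ms ++ ns)) + ns.length • LL l (d :: e :: a :: b :: (ms ++ ns))
  R : ∀ l : List (A × A), HG l → ∀ (d e a b : A) (ms : List A), ms.length + 4 = n →
    pr l (as d e) (fun u => as a b (DW ms u)) =
      TT l (d :: e :: a :: b :: ms) + LL l (d :: e :: a :: b :: ms)
  Z1 : ∀ l : List (A × A), HG l → ∀ ms : List A, ms.length + 3 = n → ∀ a b x y : A,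
    pr l (fun u => Z b a (DW ms u)) (as x y) = 0
  Zb : ∀ l : List (A × A), HG l → ∀ ms : List A, ms.length + 4 = n → ∀ a b x y z : A,
    br l z (fun u => Z b a (DW ms u)) (as x y) = 0

/-- The functions of level `n` commute. -/
def TC (A : Type*) [NonUnitalNonAssocRing A] (n : ℕ) : Prop :=
  ∀ l : List (A × A), HG l → ∀ (c : A) (xs : List A), xs.length = n → D c (TT l xs) = 0

/-- The annihilator property. -/
def KK (A : Type*) [NonUnitalNonAssocRing A] (n : ℕ) : Prop :=
  ∀ l : List (A × A), HG l → ∀ xs : List A, xs.length = n →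
    (∀ a b : A, D a b * LL l xs = 0) ∧ (∀ a b c : A, as a b c * LL l xs = 0)

/-- The commutators with the functions. -/
def CC (l : List (A × A)) : List A → A
  | x :: xs => D x (TT l xs)
  | _ => 0

theorem CC_c (l : List (A × A)) (x : A) (xs : List A) : CC l (x :: xs) = D x (TT l xs) := rfl

variable [Alt2 A]

theorem move (Φ : (A → A) → A) (hadd : ∀ M M' : A → A, Φ (fun u => M u + M' u) = Φ M + Φ M')
    (a b : A) (k : ℕ)
    (h0 : ∀ (us : List A) (c : A) (vs : List A), us.length + vs.length + 1 = k →
      Φ (fun u => DW (us ++ as a b c :: vs) u) = 0) :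
    ∀ (vs us : List A), us.length + vs.length = k →
      Φ (fun u => DW us (as a b (DW vs u))) = Φ (fun u => DW (us ++ vs) (as a b u)) := by
  intro vs
  induction vs with
  | nil =>
    intro us _
    rw [List.append_nil]; rfl
  | cons c vs ih =>
    intro us hl
    have h1 : (fun u => DW us (as a b (DW (c :: vs) u))) =
        fun u => DW (us ++ [c]) (as a b (DW vs u)) + DW (us ++ as a b c :: vs) u := by
      funext u
      rw [DW_append, DW_append, ← DW_add]
      congr 1
      show as a b (D c (DW vs u)) = D c (as a b (DW vs u)) + D (as a b c) (DW vs u)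
      rw [D_rho, add_assoc, two, add_zero]
    rw [h1, hadd, h0 us c vs (by simp at hl ⊢; omega), add_zero,
      ih (us ++ [c]) (by simp at hl ⊢; omega), List.append_assoc]
    rfl

section

variable {k : ℕ} (H : Hi A (k + 3)) (l : List (A × A)) (hl : HG l)
include H hl

theorem D2 (d e a : A) (ms : List A) (hm : ms.length = k) :
    LL l (a :: d :: e :: a :: ms) = 0 := by
  have h := br_mo_self l (DW ms) (as d e) a
  rw [← LL_cc, (H.L l hl).comm _ _ (by simp; omega)] at h
  exact h

theorem lamDer : DerL (Lam l) (k + 4) :=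
  stepLam l (k + 3) hl (fun l' h' => H.T l' h') (by omega)

theorem CC_self (a : A) (xs : List A) (hx : xs.length = k + 2) : D a (TT l (a :: xs)) = 0 := by
  match xs with
  | [] => simp at hx
  | [_] => simp at hx
  | d :: e :: ms =>
    have hm : ms.length = k := by simpa using hx
    have h1 := D2 H l hl d e a ms hm
    have h2 : Lam l (a :: d :: e :: a :: ms) = 0 := by
      have : Lam l (a :: d :: e :: a :: ms) = Lam l (a :: a :: d :: e :: ms) := by
        refine (lamDer H l hl).perm _ _ (pm ?_) (by simp; omega)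
        simp only [← Multiset.cons_coe, ← Multiset.singleton_add]
        abel
      rw [this, (lamDer H l hl).alt _ _ (by simp; omega)]
    rw [Lam_c, h1, zero_add] at h2
    have h3 : TT l (a :: d :: e :: ms) = TT l (d :: e :: a :: ms) := by
      refine (H.T l hl).perm _ _ (pm ?_) (by simp; omega)
      simp only [← Multiset.cons_coe, ← Multiset.singleton_add]
      abel
    rw [h3, h2]

theorem CC_sym : SymL (CC l) (k + 4) := by
  refine ⟨?_, ?_, ?_⟩
  · apply perm_of_two
    · intro a b xs hx
      refine polar (fun a b => CC l (a :: b :: xs)) ?_ ?_ ?_ a b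
      · intro a a' b
        show D (a + a') _ = D a _ + D a' _
        rw [D_add1]
      · intro a b b'
        show D a (TT l ((b + b') :: xs)) = D a _ + D a _
        rw [(H.T l hl).add _ _ _ (by omega), D_add2]
      · intro a
        exact CC_self H l hl a xs (by omega)
    · intro a xs ys hp hx
      rw [CC_c, CC_c, (H.T l hl).perm xs ys hp (by omega)]
  · intro a b xs _
    rw [CC_c, CC_c, CC_c, D_add1]
  · intro a xs hx
    exact CC_self H l hl a xs (by omega)

omit H hl [Alt2 A] in
theorem Lam_LL_CC (x : A) (xs : List A) : Lam l (x :: xs) = LL l (x :: xs) + CC l (x :: xs) := rfl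

omit H hl in
theorem LL_Lam_CC (x : A) (xs : List A) : LL l (x :: xs) = Lam l (x :: xs) + CC l (x :: xs) := by
  rw [Lam_LL_CC, add_assoc, two, add_zero]

theorem LL_sym : SymL (LL l) (k + 4) := by
  have h1 := lamDer H l hl
  have h2 := CC_sym H l hl
  refine ⟨?_, ?_, ?_⟩
  · intro xs ys hp hx
    match xs, ys, hp.length_eq with
    | [], _, _ => simp at hx
    | x :: xs, [], h => simp at h
    | x :: xs, y :: ys, _ =>
      rw [LL_Lam_CC, LL_Lam_CC, h1.perm _ _ hp hx, h2.perm _ _ hp hx]
  · intro a b xs hx
    rw [LL_Lam_CC, LL_Lam_CC, LL_Lam_CC, h1.add _ _ _ hx, h2.add _ _ _ hx]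
    abel
  · intro a xs hx
    rw [LL_Lam_CC, h1.alt _ _ hx, h2.alt _ _ hx, add_zero]

theorem pr_rho (ms : List A) (hm : ms.length = k) (a b d e : A) :
    pr l (fun u => as a b (DW ms u)) (as d e) = TT l (d :: e :: b :: a :: ms) := by
  have h := H.Z1 l hl ms (by omega) a b d e
  have h' : pr l (fun u => Z b a (DW ms u)) (as d e) = TT l (d :: e :: b :: a :: ms) +
      pr l (fun u => as a b (DW ms u)) (as d e) := by
    rw [TT_cc, ← pr_add1]
    exact pr_congr l (fun u => rfl) (fun u => rfl)
  rw [h'] at h
  exact (eq_of_add h).symm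

theorem D3 (hN : ∀ (a b d e : A) (ms : List A), ms.length = k →
      as a b (TT l (d :: e :: ms) + TP l (d :: e :: ms)) = 0)
    (ms : List A) (hm : ms.length = k) (a b d e : A) :
    LL l (a :: d :: e :: b :: ms) = TT l (d :: e :: b :: a :: ms) +
      pr l (as d e) (fun u => as a b (DW ms u)) := by
  have h := br_y1 l (DW ms) (as d e) a b
  have h1 : br l a (fun u => D b (DW ms u)) (as d e) = LL l (a :: d :: e :: b :: ms) := rfl
  have h2 : br l a (DW ms) (as d e) = LL l (a :: d :: e :: ms) := rfl
  have h3 := hN a b d e ms hm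
  rw [TT_cc, TP_cc] at h3
  rw [h1, h2, h3, add_zero, (H.L l hl).comm _ _ (by simp; omega), add_zero,
    pr_rho H l hl ms hm] at h
  exact h

omit H in
/-- Moving an operator `rho` through a word, in the second argument. -/
theorem D4i (H' : ∀ j, 3 ≤ j → j < k + 3 → Hi A j) (ms : List A) (hm : ms.length = k)
    (a b d e : A) :
    pr l (as d e) (fun u => as a b (DW ms u)) = pr l (as d e) (fun u => DW ms (as a b u)) := by
  refine move (fun M => pr l (as d e) M) (fun M M' => pr_add2 l _ M M') a b k ?_ ms [] (by simpa)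
  intro us c vs hk
  have H2 := H' (k + 2) (by omega) (by omega)
  have h1 : TP l (d :: e :: (us ++ as a b c :: vs)) = 0 := by
    rw [H2.P l hl _ (by simp; omega)]
    have hp : (d :: e :: (us ++ as a b c :: vs)).Perm (as a b c :: (d :: e :: (us ++ vs))) := by
      refine pm ?_
      simp only [← Multiset.cons_coe, ← Multiset.coe_add, ← Multiset.singleton_add]
      abel
    rw [(H2.T l hl).perm _ _ hp (by simp; omega), (H2.L l hl).perm _ _ hp (by simp; omega),
      (H2.T l hl).zas _ _ _ _ (by simp; omega), (H2.L l hl).zas _ _ _ _ (by simp; omega), add_zero]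
  exact h1

theorem D4ii (H' : ∀ j, 3 ≤ j → j < k + 3 → Hi A j) (ms : List A) (hm : ms.length = k)
    (a b d e : A) :
    pr l (fun u => DW ms (as d e u)) (as a b) = TT l (a :: b :: e :: d :: ms) := by
  rw [← pr_rho H l hl ms hm d e a b]
  symm
  refine move (fun M => pr l M (as a b)) (fun M M' => pr_add1 l M M' _) d e k ?_ ms [] (by simpa)
  intro us c vs hk
  have H2 := H' (k + 2) (by omega) (by omega)
  have h1 : TT l (a :: b :: (us ++ as d e c :: vs)) = 0 := by
    have hp : (a :: b :: (us ++ as d e c :: vs)).Perm (as d e c :: (a :: b :: (us ++ vs))) := by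
      refine pm ?_
      simp only [← Multiset.cons_coe, ← Multiset.coe_add, ← Multiset.singleton_add]
      abel
    rw [(H2.T l hl).perm _ _ hp (by simp; omega), (H2.T l hl).zas _ _ _ _ (by simp; omega)]
  exact h1

/-- The reversed pairing at the next level. -/
theorem D4v (ms : List A) (hm : ms.length = k) (a b d e : A) :
    TP l (d :: e :: a :: b :: ms) = pr l (as d e) (fun u => as a b (DW ms u)) := by
  have h1 : TP l (d :: e :: (a * b) :: ms) = pr l (as d e) (fun u => D b (DW ms u) * a) +
      pr l (as d e) (fun u => D a (DW ms u) * b) + TP l (d :: e :: a :: b :: ms) +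
      pr l (as d e) (fun u => as a b (DW ms u)) := by
    rw [TP_cc, TP_cc, ← pr_add2, ← pr_add2, ← pr_add2]
    exact pr_congr l (fun _ => rfl) (fun u => D_mul' a b _)
  have h2 := pr_R l (as d e) (fun u => D b (DW ms u)) a
  have h3 := pr_R l (as d e) (fun u => D a (DW ms u)) b
  rw [br_swap] at h2 h3
  have t1 : pr l (as d e) (fun u => D b (DW ms u)) = TP l (d :: e :: b :: ms) := rfl
  have t2 : pr l (as d e) (fun u => D a (DW ms u)) = TP l (d :: e :: a :: ms) := rfl
  have h4 := br_mo l (DW ms) (as d e) a b
  rw [← LL_cc, ← LL_cc, (H.L l hl).comm _ _ (by simp; omega),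
    (H.L l hl).comm _ _ (by simp; omega), add_zero] at h4
  have hs : ∀ z, (d :: e :: z :: ms).Perm (z :: d :: e :: ms) := by
    intro z
    refine pm ?_
    simp only [← Multiset.cons_coe, ← Multiset.singleton_add]
    abel
  have hP : ∀ z, TP l (d :: e :: z :: ms) = TT l (z :: d :: e :: ms) + LL l (z :: d :: e :: ms) := by
    intro z
    rw [H.P l hl _ (by simp; omega), (H.T l hl).perm _ _ (hs z) (by simp; omega),
      (H.L l hl).perm _ _ (hs z) (by simp; omega)]
  have h5 : D a (TT l (b :: d :: e :: ms)) + D b (TT l (a :: d :: e :: ms)) = 0 := by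
    rw [← CC_c, ← CC_c, (CC_sym H l hl).sw a b _ (by simp; omega), two]
  have h6 : D a (LL l (b :: d :: e :: ms)) = 0 := (H.L l hl).comm _ _ (by simp; omega)
  have h7 : D b (LL l (a :: d :: e :: ms)) = 0 := (H.L l hl).comm _ _ (by simp; omega)
  rw [h2, h3, t1, t2, hP, hP, hP, (H.T l hl).mul _ _ _ (by simp; omega),
    (H.L l hl).mul _ _ _ (by simp; omega)] at h1
  refine lin5 h1 h4 h5 h6 h7 ?_
  simp only [D, add_mul]
  abel_nf
  simp only [twoZ, add_zero]

end

section

variable {k : ℕ} (H : Hi A (k + 3)) (H' : ∀ j, 3 ≤ j → j < k + 3 → Hi A j ∧ TC A j)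
  (l : List (A × A)) (hl : HG l)

omit [Alt2 A] in
theorem closedTT {j : ℕ} (h : Hi A j) (h' : TC A j) (l : List (A × A)) (hl : HG l) :
    ClosedL (TT l) j := ⟨h.T l hl, h' l hl⟩

omit [Alt2 A] in
theorem as_nsmul (a b : A) (m : ℕ) (x : A) (h : as a b x = 0) : as a b (m • x) = 0 := by
  induction m with
  | zero => rw [zero_smul, as_zero3]
  | succ m ih => rw [succ_nsmul, as_add3, ih, h, add_zero]

omit [Alt2 A] in
theorem D_nsmul (a : A) (m : ℕ) (x : A) (h : D a x = 0) : D a (m • x) = 0 := by
  induction m with
  | zero => rw [zero_smul, D_zero2]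
  | succ m ih => rw [succ_nsmul, D_add2, ih, h, add_zero]

include H' hl

theorem brQ_step (ms ns : List A) (hm : ms.length + ns.length + 2 = k) (x c a b d e : A) :
    br l c (fun u => DW (x :: ms) (as d e u)) (fun u => DW ns (as a b u)) =
      br l c (fun u => DW ms (as d e u)) (fun u => DW (x :: ns) (as a b u)) := by
  obtain ⟨H2, H3⟩ := H' (k + 2) (by omega) (by omega)
  have hc := closedTT H2 H3 l hl
  have h := br_x5 l (fun u => DW ms (as d e u)) (fun u => DW ns (as a b u)) x c
  rw [H2.Q l hl d e a b ms ns (by omega), H2.Q l hl a b d e ns ms (by omega), as_add3, as_add3,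
    as_add3, hc.nuc3 _ _ _ (by simp; omega), hc.nuc3 _ _ _ (by simp; omega),
    as_nsmul _ _ _ _ ((H2.L l hl).nuc3 _ _ _ (by simp; omega)),
    as_nsmul _ _ _ _ ((H2.L l hl).nuc3 _ _ _ (by simp; omega)), add_zero, add_zero] at h
  exact eq_of_add h

include H

theorem brQ (ms : List A) : ∀ ns : List A, ms.length + ns.length + 1 = k → ∀ c a b d e : A,
    br l c (fun u => DW ms (as d e u)) (fun u => DW ns (as a b u)) =
      LL l (c :: d :: e :: a :: b :: (ms ++ ns)) := by
  induction ms with
  | nil =>
    intro ns hm c a b d e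
    simp only [List.length_nil, zero_add] at hm
    obtain ⟨H2, H3⟩ := H' (k + 2) (by omega) (by omega)
    show br l c (as d e) (fun u => DW ns (as a b u)) = LL l (c :: d :: e :: a :: b :: ns)
    rw [br_swap]
    have h1 : br l c (fun u => DW ns (as a b u)) (as d e) =
        br l c (fun u => as a b (DW ns u)) (as d e) := by
      symm
      refine move (fun M => br l c M (as d e)) (fun M M' => br_add2 l M M' _ c) a b ns.length ?_
        ns [] (by simp)
      intro us z vs hk
      have h1 : LL l (c :: d :: e :: (us ++ as a b z :: vs)) = 0 := by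
        have hp : (c :: d :: e :: (us ++ as a b z :: vs)).Perm
            (as a b z :: (c :: d :: e :: (us ++ vs))) := by
          refine pm ?_
          simp only [← Multiset.cons_coe, ← Multiset.coe_add, ← Multiset.singleton_add]
          abel
        rw [(H2.L l hl).perm _ _ hp (by simp; omega), (H2.L l hl).zas _ _ _ _ (by simp; omega)]
      exact h1
    have h2 := H.Zb l hl ns (by omega) a b d e c
    have h3 : br l c (fun u => Z b a (DW ns u)) (as d e) = LL l (c :: d :: e :: b :: a :: ns) +
        br l c (fun u => as a b (DW ns u)) (as d e) := by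
      rw [LL_cc, ← br_add2]
      exact br_congr l c (fun u => rfl) (fun u => rfl)
    rw [h3] at h2
    rw [h1, ← eq_of_add h2]
    refine (LL_sym H l hl).perm _ _ (pm ?_) (by simp; omega)
    simp only [← Multiset.cons_coe, ← Multiset.singleton_add]
    abel
  | cons x ms ih =>
    intro ns hm c a b d e
    rw [brQ_step H' l hl ms ns (by simp at hm; omega) x c a b d e,
      ih (x :: ns) (by simp at hm ⊢; omega)]
    refine (LL_sym H l hl).perm _ _ (pm ?_) (by simp at hm ⊢; omega)
    simp only [← Multiset.cons_coe, ← Multiset.coe_add, ← Multiset.singleton_add]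
    abel

theorem QN (ns : List A) : ∀ ms : List A, ms.length + ns.length = k → ∀ a b d e : A,
    pr l (fun u => DW ms (as d e u)) (fun u => DW ns (as a b u)) =
      TT l (d :: e :: a :: b :: (ms ++ ns)) +
        ns.length • Lam l (d :: e :: a :: b :: (ms ++ ns)) := by
  have hS := stepA l (k + 3) (H.T l hl) (by omega)
  induction ns with
  | nil =>
    intro ms hm a b d e
    have h := D4ii H l hl (fun j h1 h2 => (H' j h1 h2).1) ms (by simpa using hm) a b d e
    rw [List.length_nil, zero_smul, add_zero, List.append_nil]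
    refine Eq.trans h ?_
    refine hS.perm _ _ (pm ?_) (by simp at hm ⊢; omega)
    simp only [← Multiset.cons_coe, ← Multiset.singleton_add]
    abel
  | cons x ns ih =>
    intro ms hm a b d e
    have hm' : ms.length + ns.length + 1 = k := by simp at hm; omega
    have h := pr_a4 l (fun u => DW ms (as d e u)) (fun u => DW ns (as a b u)) x
    have h1 := ih (x :: ms) (by simp; omega) a b d e
    have h2 := H.Q l hl d e a b ms ns (by omega)
    have h3 := brQ H H' l hl ms ns hm' x a b d e
    have h1' : pr l (fun u => D x (DW ms (as d e u))) (fun u => DW ns (as a b u)) =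
        TT l (d :: e :: a :: b :: (x :: ms ++ ns)) +
          ns.length • Lam l (d :: e :: a :: b :: (x :: ms ++ ns)) := h1
    have h4 : pr l (fun u => DW ms (as d e u)) (fun u => DW (x :: ns) (as a b u)) =
        pr l (fun u => DW ms (as d e u)) (fun u => D x (DW ns (as a b u))) := rfl
    have hp : (d :: e :: a :: b :: (x :: ms ++ ns)).Perm
        (d :: e :: a :: b :: (ms ++ x :: ns)) := by
      refine pm ?_
      simp only [← Multiset.cons_coe, ← Multiset.coe_add, ← Multiset.singleton_add]
      abel
    have hp' : (x :: d :: e :: a :: b :: (ms ++ ns)).Perm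
        (d :: e :: a :: b :: (ms ++ x :: ns)) := by
      refine pm ?_
      simp only [← Multiset.cons_coe, ← Multiset.coe_add, ← Multiset.singleton_add]
      abel
    have h5 : D x (TT l (d :: e :: a :: b :: (ms ++ ns))) +
        LL l (x :: d :: e :: a :: b :: (ms ++ ns)) = Lam l (d :: e :: a :: b :: (ms ++ x :: ns)) := by
      rw [add_comm, ← Lam_c, (lamDer H l hl).perm _ _ hp' (by simp; omega)]
    rw [h1', hS.perm _ _ hp (by simp; omega), (lamDer H l hl).perm _ _ hp (by simp; omega), h2, h3,
      D_add2, D_nsmul _ _ _ ((H.L l hl).comm _ _ (by simp; omega)), add_zero, h5] at h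
    rw [h4, List.length_cons, succ_nsmul]
    refine lin1 h ?_
    abel_nf
    simp only [twoZ, add_zero]

end

end MP6489b8.CT
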