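import Mathlib
import Pool.Agent.Lib.MP_6489b8_al.CT.StepD

/-!
# The relation between the levels, and the induction
-/

namespace MP6489b8.CT

variable {A : Type*} [NonUnitalNonAssocRing A] [Alt2 A]

theorem br_id_id (l : List (A × A)) (c : A) : br l c (fun u => u) (fun u => u) = 0 := by
  induction l with
  | nil => rfl
  | cons p l ih =>
    rw [br, ev_cons]
    rw [br] at ih
    rw [ih, as23, two, zero_add]

theorem level2 (l : List (A × A)) (hb : Base l) (d e : A) :
    TT l [d, e] + TP l [d, e] = 0 := by
  have h := pr_le l (fun u => u) (fun u => u) d e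
  have h1 : pr l (fun u => u) (fun u => u) = 0 := hb.b3
  rw [h1, as_zero3, br_id_id, add_zero] at h
  have h2 : TT l [d, e] = pr l (fun u => u) (fun u => as d e u) := rfl
  have h3 : TP l [d, e] = pr l (fun u => as d e u) (fun u => u) := rfl
  rw [h2, h3, add_comm]
  exact h

section

variable {k : ℕ} (H : Hi A (k + 3)) (H' : ∀ j, 3 ≤ j → j < k + 3 → Hi A j ∧ TC A j)
  (l : List (A × A)) (hl : HG l)

include H' hl in
theorem hNuc (a b d e : A) (ms : List A) (hm : ms.length = k) :
    as a b (TT l (d :: e :: ms) + TP l (d :: e :: ms)) = 0 := by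
  match k, ms, hm with
  | 0, [], _ => rw [level2 l hl.base, as_zero3]
  | k + 1, ms, hm =>
    obtain ⟨H2, H3⟩ := H' (k + 3) (by omega) (by omega)
    rw [H2.P l hl _ (by simp; omega), ← add_assoc, two, zero_add,
      (H2.L l hl).nuc3 _ _ _ (by simp; omega)]

include H H' hl in
/-- The formula for the reversed operator. -/
theorem Rform (ms : List A) (hm : ms.length = k) (a b d e : A) :
    pr l (as d e) (fun u => as a b (DW ms u)) =
      TT l (d :: e :: a :: b :: ms) + k • Lam l (d :: e :: a :: b :: ms) := by
  rw [D4i l hl (fun j h1 h2 => (H' j h1 h2).1) ms hm a b d e]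
  have h := QN H H' l hl ms [] (by simpa using hm) a b d e
  rw [List.nil_append, hm] at h
  exact h

include H H' hl in
theorem D5 (xs : List A) (hx : xs.length = k + 4) : LL l xs = k • Lam l xs := by
  have hS := stepA l (k + 3) (H.T l hl) (by omega)
  match xs with
  | [] => simp at hx
  | [_] => simp at hx
  | [_, _] => simp at hx
  | [_, _, _] => simp at hx
  | a :: d :: e :: b :: ms =>
    have hm : ms.length = k := by simpa using hx
    have h := D3 H l hl (hNuc H' l hl) ms hm a b d e
    rw [Rform H H' l hl ms hm a b d e] at h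
    have s1 : TT l (d :: e :: b :: a :: ms) = TT l (d :: e :: a :: b :: ms) := by
      refine hS.perm _ _ (pm ?_) (by simp; omega)
      simp only [← Multiset.cons_coe, ← Multiset.singleton_add]
      abel
    have s2 : Lam l (a :: d :: e :: b :: ms) = Lam l (d :: e :: a :: b :: ms) := by
      refine (lamDer H l hl).perm _ _ (pm ?_) (by simp; omega)
      simp only [← Multiset.cons_coe, ← Multiset.singleton_add]
      abel
    rw [h, s1, s2, ← add_assoc, two, zero_add]

end

/-- A nuclear element. -/
theorem as_mul_nuc (v : A) (hv : ∀ a b : A, as a b v = 0) (a b f : A) :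
    as a b (f * v) = as a b f * v := by
  have h1 := hv (a * b) f
  have h2 := hv b f
  have h3 := hv a (b * f)
  have h4 := congrArg (fun t => a * t) h2
  simp only [as, mul_add, add_mul, mul_zero] at *
  refine lin3 h1 h3 h4 ?_
  abel_nf
  simp only [twoZ, add_zero]

/-- The relation coming from a brace of two left multiplications. -/
theorem lemK (l : List (A × A)) (M N : A → A) (v v' : A) (g : A → A) (P S : A → A → A)
    (hv : pr l M N = v) (hv' : pr l N M = v') (hg : ∀ x, br l x M N = g x)
    (hP : ∀ x y, pr l (fun u => as x y (N u)) M = P x y)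
    (hS : ∀ x y, pr l (fun u => as x y (M u)) N = S x y)
    (nv : ∀ a b, as a b v = 0) (nv' : ∀ a b, as a b v' = 0) (ng : ∀ a b c, as a b (g c) = 0)
    (dg : ∀ a b, g (a * b) = a * g b + b * g a)
    (dP : ∀ a b c, P (a * b) c = a * P b c + b * P a c)
    (dS : ∀ a b c, S (a * b) c = a * S b c + b * S a c)
    (nM : ∀ f a b, as a b (pr l (fun u => D f (M u)) N) = 0)
    (nN : ∀ f a b, as a b (pr l (fun u => D f (N u)) M) = 0) (a b f : A) :
    pr l (fun u => D f (as a b (M u))) N + pr l (fun u => D b (as a f (N u))) M =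
      as a b f * (v + v') + D a f * g b + D a b * g f + D b f * g a := by
  have b1 := br_teich l M (fun u => f * N u) a b
  have b2 := br_teich l N (fun u => b * M u) a f
  have c1 : ∀ x, br l x M (fun u => f * N u) = g (x * f) + x * g f + P x f := by
    intro x
    rw [br_swap, br_teich, br_swap l N M (x * f), br_swap l N M f, hg, hg, hP, hv', nv', add_zero]
  have c2 : ∀ x, br l x N (fun u => b * M u) = g (x * b) + x * g b + S x b := by
    intro x
    rw [br_swap, br_teich, hg, hg, hS, hv, nv, add_zero]
  have d1 : ∀ M' N' : A → A, ∀ x, pr l M' (fun u => x * N' u) =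
      x * pr l M' N' + pr l (fun u => D x (M' u)) N' := by
    intro M' N' x
    have h := pr_D l M' N' x
    rw [h, ← add_assoc, two, zero_add]
  rw [c1, c1, d1, d1, hS, hv, as_add3, nM, add_zero, as_mul_nuc v nv] at b1
  rw [c2, c2, d1, d1, hP, hv', as_add3, nN, add_zero, as_mul_nuc v' nv', ← br_swap] at b2
  have e : br l a (fun u => b * M u) (fun u => f * N u) =
      br l a (fun u => b * M u) (fun u => f * N u) := rfl
  rw [b2] at b1
  rw [dg (a * b) f, dg (a * f) b, dg a b, dg a f, dg b f, dg f b, dP, dS] at b1
  have hN : ∀ x y z, x * (y * g z) = x * y * g z := fun x y z => (eq_of_add (ng x y z)).symm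
  simp only [mul_add, hN, as23 a f b] at b1
  refine lin1 b1 ?_
  simp only [D, mul_add, add_mul]
  abel_nf
  simp only [twoZ, sixZ, add_zero]

section

variable {k : ℕ} (H : Hi A (k + 5)) (H' : ∀ j, 3 ≤ j → j < k + 5 → Hi A j ∧ TC A j)
  (l : List (A × A)) (hl : HG l)
include H H' hl

/-- The relation between three levels. -/
theorem D6 (ms : List A) (hm : ms.length = k + 1) (a b f p q : A) :
    (k + 3) • Lam l (p :: q :: a :: b :: f :: ms) =
      as a b f * LL l (p :: q :: ms) + D a b * LL l (f :: p :: q :: ms) := by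
  obtain ⟨H4, T4⟩ := H' (k + 4) (by omega) (by omega)
  obtain ⟨H3, T3⟩ := H' (k + 3) (by omega) (by omega)
  have C4 := closedTT H4 T4 l hl
  have C3 := closedTT H3 T3 l hl
  have L5 := H.L l hl
  have L4 := H4.L l hl
  have L3 := H3.L l hl
  have hS := stepA l (k + 5) (H.T l hl) (by omega)
  have hD := H.T l hl
  have rS : ∀ x y, pr l (fun u => as x y (DW ms u)) (as p q) = TT l (p :: q :: y :: x :: ms) :=
    fun x y => pr_rho H4 l hl ms hm x y p q
  have leP : ∀ (x y : A) (ns : List A), pr l (fun u => as x y (as p q u)) (DW ns) =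
      pr l (as p q) (fun u => as x y (DW ns u)) + as x y (TP l (p :: q :: ns)) +
        LL l (D x y :: p :: q :: ns) := by
    intro x y ns
    have h := pr_le l (as p q) (DW ns) x y
    rw [br_swap, ← LL_cc, ← TP_cc] at h
    refine lin1 h ?_
    abel_nf
    simp only [twoZ, add_zero]
  have rP : ∀ x y, pr l (fun u => as x y (as p q u)) (DW ms) =
      TT l (p :: q :: x :: y :: ms) + LL l (p :: q :: x :: y :: ms) := by
    intro x y
    rw [leP, H.R l hl p q x y ms (by omega), H3.P l hl _ (by simp; omega), as_add3,
      C3.nuc3 _ _ _ (by simp; omega), L3.nuc3 _ _ _ (by simp; omega), L4.zD _ _ _ (by simp; omega),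
      add_zero, add_zero, add_zero]
  have pT : ∀ (x y z : A), TT l (p :: q :: x :: y :: ms) = TT l (x :: y :: p :: q :: ms) := by
    intro x y z
    refine hD.perm _ _ (pm ?_) (by simp; omega)
    simp only [← Multiset.cons_coe, ← Multiset.singleton_add]
    abel
  have pL : ∀ (x y z : A), LL l (p :: q :: x :: y :: ms) = LL l (x :: y :: p :: q :: ms) := by
    intro x y z
    refine L5.perm _ _ (pm ?_) (by simp; omega)
    simp only [← Multiset.cons_coe, ← Multiset.singleton_add]
    abel
  have hK := lemK l (DW ms) (as p q) (TT l (p :: q :: ms)) (TP l (p :: q :: ms))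
    (fun x => LL l (x :: p :: q :: ms))
    (fun x y => TT l (x :: y :: p :: q :: ms) + LL l (x :: y :: p :: q :: ms))
    (fun x y => TT l (y :: x :: p :: q :: ms)) rfl rfl (fun x => rfl)
    (fun x y => by rw [rP, pT x y x, pL x y x])
    (fun x y => by rw [rS, pT y x y])
    (fun x y => C3.nuc3 x y _ (by simp; omega))
    (fun x y => by
      rw [H3.P l hl _ (by simp; omega), as_add3, C3.nuc3 _ _ _ (by simp; omega),
        L3.nuc3 _ _ _ (by simp; omega), add_zero])
    (fun x y z => L4.nuc3 _ _ _ (by simp; omega))
    (fun x y => L4.mul _ _ _ (by simp; omega))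
    (fun x y z => by
      rw [hD.mul _ _ _ (by simp; omega), L5.mul _ _ _ (by simp; omega), mul_add, mul_add]; abel)
    (fun x y z => by
      rw [hD.sw _ _ _ (by simp; omega), hD.mul _ _ _ (by simp; omega),
        hD.sw z x _ (by simp; omega), hD.sw z y _ (by simp; omega)])
    (fun x y z => by
      have h : pr l (fun u => D x (DW ms u)) (as p q) = TT l (p :: q :: x :: ms) := rfl
      rw [h, C4.nuc3 _ _ _ (by simp; omega)])
    (fun x y z => by
      have h := pr_a4 l (as p q) (DW ms) x
      have h1 : pr l (as p q) (fun u => D x (DW ms u)) = TP l (p :: q :: x :: ms) := rfl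
      have h2 : pr l (as p q) (DW ms) = TP l (p :: q :: ms) := rfl
      rw [h1, h2, br_swap, ← LL_cc] at h
      have h3 : pr l (fun u => D x (as p q u)) (DW ms) = D x (TP l (p :: q :: ms)) +
          LL l (x :: p :: q :: ms) + TP l (p :: q :: x :: ms) := by
        refine lin1 h ?_
        abel_nf
        simp only [twoZ, add_zero]
      rw [h3, H3.P l hl _ (by simp; omega), H4.P l hl _ (by simp; omega), as_add3, as_add3,
        as_add3, L4.nuc3 _ _ _ (by simp; omega), L4.nuc3 _ _ _ (by simp; omega),
        C4.nuc3 _ _ _ (by simp; omega), D_add2, C3.comm _ _ (by simp; omega),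
        L3.comm _ _ (by simp; omega)]
      simp only [add_zero, as_zero3])
    a b f
  have x1 : pr l (fun u => D f (as a b (DW ms u))) (as p q) =
      TT l (p :: q :: b :: a :: f :: ms) := by
    have h : pr l (fun u => D f (as a b (DW ms u))) (as p q) =
        pr l (fun u => as a b (DW (f :: ms) u)) (as p q) + TT l (p :: q :: as a b f :: ms) := by
      rw [TT_cc, ← pr_add1]
      exact pr_congr l (fun u => D_rho a b f _) (fun u => rfl)
    have h1 : TT l (p :: q :: as a b f :: ms) = TT l (as a b f :: p :: q :: ms) := by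
      refine C4.perm _ _ (pm ?_) (by simp; omega)
      simp only [← Multiset.cons_coe, ← Multiset.singleton_add]
      abel
    rw [h, h1, C4.zas _ _ _ _ (by simp; omega), add_zero,
      pr_rho H l hl (f :: ms) (by simp; omega)]
  have hE : (k + 2) • Lam l (p :: q :: a :: f :: b :: ms) = (k + 2) •
      Lam l (p :: q :: a :: b :: f :: ms) := by
    congr 1
    refine (lamDer H l hl).perm _ _ (pm ?_) (by simp; omega)
    simp only [← Multiset.cons_coe, ← Multiset.singleton_add]
    abel
  have x2 : pr l (fun u => D b (as a f (as p q u))) (DW ms) =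
      pr l (as p q) (fun u => as a f (DW (b :: ms) u)) + Lam l (b :: p :: q :: a :: f :: ms) := by
    have h := pr_a4 l (fun u => as a f (as p q u)) (DW ms) b
    have h1 : pr l (fun u => as a f (as p q u)) (fun u => D b (DW ms u)) =
        pr l (fun u => as a f (as p q u)) (DW (b :: ms)) := rfl
    rw [h1, leP a f (b :: ms), rP, D_add2, L5.comm _ _ (by simp; omega), add_zero,
      H4.P l hl _ (by simp; omega), as_add3, C4.nuc3 _ _ _ (by simp; omega),
      L4.nuc3 _ _ _ (by simp; omega), L5.zD _ _ _ (by simp; omega)] at h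
    have hb := br_bd l (as p q) (DW ms) a b f
    have hb1 := br_x5 l (as p q) (DW ms) (D a f) b
    have e1 : br l b (as p q) (DW ms) = LL l (b :: p :: q :: ms) := by rw [br_swap]; rfl
    have e2 : br l (as a f b) (as p q) (DW ms) = LL l (as a f b :: p :: q :: ms) := by
      rw [br_swap]; rfl
    have e3 : br l (D (D a f) b) (as p q) (DW ms) = LL l (D (D a f) b :: p :: q :: ms) := by
      rw [br_swap]; rfl
    have e4 : pr l (as p q) (DW ms) = TP l (p :: q :: ms) := rfl
    have e5 : pr l (DW ms) (as p q) = TT l (p :: q :: ms) := rfl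
    rw [e4, e5, H3.P l hl _ (by simp; omega), as_add3, as_add3, C3.nuc3 _ _ _ (by simp; omega),
      L3.nuc3 _ _ _ (by simp; omega), add_zero, add_zero] at hb1
    rw [hb1, e1, e2, e3, L4.nuc3 _ _ _ (by simp; omega), L4.comm _ _ (by simp; omega),
      L4.zas _ _ _ _ (by simp; omega), L4.zD _ _ _ (by simp; omega)] at hb
    simp only [add_zero] at hb
    have e6 : br l b (as p q) (fun u => as a f (DW ms u)) =
        LL l (b :: p :: q :: f :: a :: ms) := by
      rw [br_swap]
      have h2 := H.Zb l hl ms (by omega) a f p q b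
      have h3 : br l b (fun u => Z f a (DW ms u)) (as p q) = LL l (b :: p :: q :: f :: a :: ms) +
          br l b (fun u => as a f (DW ms u)) (as p q) := by
        rw [LL_cc, ← br_add2]
        exact br_congr l b (fun u => rfl) (fun u => rfl)
      rw [h3] at h2
      exact (eq_of_add h2).symm
    have e7 : LL l (b :: p :: q :: f :: a :: ms) = LL l (b :: p :: q :: a :: f :: ms) := by
      refine (LL_sym H l hl).perm _ _ (pm ?_) (by simp; omega)
      simp only [← Multiset.cons_coe, ← Multiset.singleton_add]
      abel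
    rw [e6, e7] at hb
    rw [Lam_c]
    refine lin2 h hb ?_
    abel_nf
    simp only [twoZ, add_zero]
  have x3 := Rform H H' l hl (b :: ms) (by simp; omega) a f p q
  have p1 : Lam l (b :: p :: q :: a :: f :: ms) = Lam l (p :: q :: a :: b :: f :: ms) := by
    refine (lamDer H l hl).perm _ _ (pm ?_) (by simp; omega)
    simp only [← Multiset.cons_coe, ← Multiset.singleton_add]
    abel
  have p2 : TT l (p :: q :: b :: a :: f :: ms) = TT l (p :: q :: a :: f :: b :: ms) := by
    refine hS.perm _ _ (pm ?_) (by simp; omega)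
    simp only [← Multiset.cons_coe, ← Multiset.singleton_add]
    abel
  have p3 : TT l (p :: q :: ms) + TP l (p :: q :: ms) = LL l (p :: q :: ms) := by
    rw [H3.P l hl _ (by simp; omega), ← add_assoc, two, zero_add]
  have g1 : D a f * LL l (b :: p :: q :: ms) = D a b * LL l (f :: p :: q :: ms) :=
    L4.DF _ _ _ _ (by simp; omega)
  have g2 : D b f * LL l (a :: p :: q :: ms) = D a b * LL l (f :: p :: q :: ms) :=
    (L4.DF' _ _ _ _ (by simp; omega)).symm
  rw [x1, x2, x3, p1, p2, p3, g1, g2, hE] at hK
  rw [succ_nsmul]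
  refine lin1 hK ?_
  abel_nf
  simp only [twoZ, fourZ, add_zero]

end

end MP6489b8.CT
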