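import Mathlib
import Pool.Agent.Lib.MP_6489b8_al.CT.StepE

/-!
# The induction
-/

namespace MP6489b8.CT

variable {A : Type*} [NonUnitalNonAssocRing A] [Alt2 A]

/-- The state of the induction. -/
structure St (A : Type*) [NonUnitalNonAssocRing A] (n : ℕ) : Prop where
  hi : Hi A n
  lo : ∀ j, 3 ≤ j → j < n → Hi A j ∧ TC A j
  kk : ∀ j, 3 ≤ j → j + 1 < n → Odd j → KK A j

theorem even_nsmul {m : ℕ} (h : Even m) (x : A) : m • x = 0 := by
  obtain ⟨r, rfl⟩ := h
  rw [← two_mul, mul_smul, twoN]

theorem odd_nsmul {m : ℕ} (h : Odd m) (x : A) : m • x = x := by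
  obtain ⟨r, rfl⟩ := h
  rw [add_smul, mul_smul, twoN, zero_add, one_smul]

omit [Alt2 A] in
theorem TT3 (l : List (A × A)) (hl : HG l) (xs : List A) (hx : xs.length = 3) : TT l xs = 0 := by
  match xs with
  | [] => simp at hx
  | [_] => simp at hx
  | [_, _] => simp at hx
  | [d, e, c] => exact hl.base.b1 d e c
  | _ :: _ :: _ :: _ :: _ => simp at hx

omit [Alt2 A] in
theorem TP3 (l : List (A × A)) (hl : HG l) (xs : List A) (hx : xs.length = 3) : TP l xs = 0 := by
  match xs with
  | [] => simp at hx
  | [_] => simp at hx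
  | [_, _] => simp at hx
  | [d, e, c] => exact hl.base.b2 d e c
  | _ :: _ :: _ :: _ :: _ => simp at hx

omit [Alt2 A] in
theorem LL3 (l : List (A × A)) (hl : HG l) (xs : List A) (hx : xs.length = 3) : LL l xs = 0 := by
  match xs with
  | [] => simp at hx
  | [_] => simp at hx
  | [_, _] => simp at hx
  | [x, f, d] => exact hl.base.b0 f d x
  | _ :: _ :: _ :: _ :: _ => simp at hx

theorem St3 : St A 3 := by
  refine ⟨⟨?_, ?_, ?_, ?_, ?_, ?_, ?_, ?_⟩, ?_, ?_⟩
  · intro l hl
    refine ⟨⟨?_, ?_, ?_⟩, ?_⟩
    · intro xs ys hp hx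
      rw [TT3 l hl xs hx, TT3 l hl ys (by rw [← hp.length_eq, hx])]
    · intro a b xs hx
      rw [TT3 l hl _ (by simpa using hx), TT3 l hl _ (by simpa using hx),
        TT3 l hl _ (by simpa using hx), add_zero]
    · intro a xs hx
      exact TT3 l hl _ (by simpa using hx)
    · intro a b xs hx
      rw [TT3 l hl _ (by simpa using hx), TT3 l hl _ (by simpa using hx),
        TT3 l hl _ (by simpa using hx), mul_zero, mul_zero, add_zero]
  · intro l hl
    refine ⟨⟨⟨?_, ?_, ?_⟩, ?_⟩, ?_⟩
    · intro xs ys hp hx
      rw [LL3 l hl xs hx, LL3 l hl ys (by rw [← hp.length_eq, hx])]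
    · intro a b xs hx
      rw [LL3 l hl _ (by simpa using hx), LL3 l hl _ (by simpa using hx),
        LL3 l hl _ (by simpa using hx), add_zero]
    · intro a xs hx
      exact LL3 l hl _ (by simpa using hx)
    · intro a b xs hx
      rw [LL3 l hl _ (by simpa using hx), LL3 l hl _ (by simpa using hx),
        LL3 l hl _ (by simpa using hx), mul_zero, mul_zero, add_zero]
    · intro c xs hx
      rw [LL3 l hl xs hx, D_zero2]
  · intro l hl _ xs hx
    exact LL3 l hl xs hx
  · intro l hl xs hx
    rw [TP3 l hl xs hx, TT3 l hl xs hx, LL3 l hl xs hx, add_zero]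
  · intro l hl d e a b ms ns h
    omega
  · intro l hl d e a b ms h
    omega
  · intro l hl ms hm a b x y
    have h0 : ms = [] := List.length_eq_zero_iff.1 (by omega)
    subst h0
    rw [← stepC1 l a b x y [] (fun c z => by rw [LL3 l hl _ (by simp), D_zero2]),
      TT3 l hl _ (by simp), TT3 l hl _ (by simp), TT3 l hl _ (by simp)]
    simp
  · intro l hl ms hm
    omega
  · intro j h1 h2
    omega
  · intro j h1 h2
    omega

section

variable {k : ℕ} (h : St A (k + 3))
include h

theorem CC_zero (l : List (A × A)) (hl : HG l) (xs : List A) (hx : xs.length = k + 4) :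
    CC l xs = 0 := by
  have H := h.hi
  have H' := h.lo
  have hLL := D5 H H' l hl xs hx
  match xs with
  | [] => simp at hx
  | c :: xs =>
    rcases Nat.even_or_odd k with he | ho
    · -- `k` even
      have hLam : Lam l (c :: xs) = CC l (c :: xs) := by
        rw [Lam_LL_CC, hLL, even_nsmul he, zero_add]
      match k, h, xs, hx, he, hLam with
      | 0, _, xs, hx, _, _ =>
        rw [CC_c, TT3 l hl xs (by simpa using hx), D_zero2]
      | 1, _, _, _, he, _ => exact absurd he (by decide)
      | k + 2, h, q :: a :: b :: f :: ms, hx, he, hLam =>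
        have hm : ms.length = k + 1 := by simp at hx; omega
        have h6 := D6 h.hi h.lo l hl ms hm a b f c q
        have hk' : Even k := by
          rcases Nat.even_or_odd k with h1 | h1
          · exact h1
          · exact absurd he (by
              obtain ⟨r, rfl⟩ := h1
              intro h2
              obtain ⟨s, hs⟩ := h2
              omega)
        have e1 : LL l (f :: c :: q :: ms) = 0 := by
          obtain ⟨H4, T4⟩ := h.lo (k + 4) (by omega) (by omega)
          refine H4.L0 l hl ?_ _ (by simp; omega)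
          obtain ⟨r, rfl⟩ := hk'
          exact ⟨r + 2, by omega⟩
        have e2 : as a b f * LL l (c :: q :: ms) = 0 := by
          have hK := h.kk (k + 3) (by omega) (by omega)
            (by obtain ⟨r, rfl⟩ := hk'; exact ⟨r + 1, by omega⟩)
          exact (hK l hl (c :: q :: ms) (by simp; omega)).2 a b f
        rw [e1, e2, mul_zero, add_zero, odd_nsmul
          (by obtain ⟨r, rfl⟩ := hk'; exact ⟨r + 1, by omega⟩)] at h6
        rw [← hLam, h6]
    · rw [odd_nsmul ho, Lam_LL_CC] at hLL
      have h2 : LL l (c :: xs) + 0 = LL l (c :: xs) + CC l (c :: xs) := by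
        rw [add_zero]; exact hLL
      exact (add_left_cancel h2).symm

theorem stTC : TC A (k + 3) := by
  intro l hl c xs hx
  exact CC_zero h l hl (c :: xs) (by simpa using hx)

theorem stKK (ho : Odd k) : KK A (k + 2) := by
  intro l hl xs hx
  have hD : ∀ a b : A, D a b * LL l xs = 0 := by
    intro a b
    match k, h, xs, hx, ho with
    | 0, _, _, _, ho => exact absurd ho (by decide)
    | 1, _, xs, hx, _ => rw [LL3 l hl xs hx, mul_zero]
    | k + 2, h, f :: p :: q :: ms, hx, ho =>
      have hm : ms.length = k + 1 := by simp at hx; omega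
      have h6 := D6 h.hi h.lo l hl ms hm a b f p q
      obtain ⟨H3, T3⟩ := h.lo (k + 3) (by omega) (by omega)
      have hk' : Even (k + 3) := by
        obtain ⟨r, hr⟩ := ho
        exact ⟨r + 1, by omega⟩
      rw [even_nsmul hk', H3.L0 l hl hk' _ (by simp; omega), mul_zero, zero_add] at h6
      exact h6.symm
  refine ⟨hD, ?_⟩
  intro a b c
  have h1 : 1 ≤ k := by obtain ⟨r, hr⟩ := ho; omega
  obtain ⟨H2, T2⟩ := h.lo (k + 2) (by omega) (by omega)
  have hc := H2.L l hl
  have n1 := hc.nuc3 a (D b c) xs hx
  have n2 := hc.nuc3 (D a c) b xs hx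
  have n3 : as (D a c) (LL l xs) b = 0 := by
    rw [as23]; exact n2
  have n4 := hc.mulc b xs hx
  rw [nuc, add_mul, add_mul, hD, zero_add]
  have e1 : a * D b c * LL l xs = 0 := by
    rw [as, hD, mul_zero, add_zero] at n1
    exact n1
  have e2 : D a c * b * LL l xs = 0 := by
    rw [as, hD, zero_mul, zero_add] at n3
    rw [as, ← n4, n3, add_zero] at n2
    exact n2
  rw [e1, e2, add_zero]

theorem stNext : St A (k + 4) := by
  have H := h.hi
  have H' := h.lo
  have hTC := stTC h
  have hcl : ∀ l : List (A × A), HG l → ClosedL (TT l) (k + 3) :=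
    fun l hl => closedTT H hTC l hl
  have hLam : ∀ (l : List (A × A)), HG l → ∀ xs : List A, xs.length = k + 4 →
      Lam l xs = LL l xs := by
    intro l hl xs hx
    have h0 := CC_zero h l hl xs hx
    match xs with
    | [] => simp at hx
    | x :: xs => rw [Lam_LL_CC, h0, add_zero]
  have hC := fun (l : List (A × A)) (hl : HG l) =>
    stepC l k (hcl l hl) (stepA l (k + 3) (H.T l hl) (by omega))
      (stepB l (k + 3) hl hcl (by omega))
      (fun ms hm => H.Z1 l hl ms (by omega))
      (fun ms hm e => H.Z1 _ (hl.der e) ms (by omega))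
  refine ⟨⟨?_, ?_, ?_, ?_, ?_, ?_, ?_, ?_⟩, ?_, ?_⟩
  · exact fun l hl => (hC l hl).1
  · exact fun l hl => stepB l (k + 3) hl hcl (by omega)
  · intro l hl he xs hx
    rw [D5 H H' l hl xs hx, even_nsmul]
    obtain ⟨r, hr⟩ := he
    exact ⟨r - 2, by omega⟩
  · intro l hl xs hx
    match xs with
    | [] => simp at hx
    | [_] => simp at hx
    | [_, _] => simp at hx
    | [_, _, _] => simp at hx
    | d :: e :: a :: b :: ms =>
      have hm : ms.length = k := by simpa using hx
      rw [D4v H l hl ms hm, Rform H H' l hl ms hm, ← D5 H H' l hl _ hx]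
  · intro l hl d e a b ms ns hm
    rw [QN H H' l hl ns ms (by omega), hLam l hl _ (by simp; omega)]
  · intro l hl d e a b ms hm
    rw [Rform H H' l hl ms (by omega), ← D5 H H' l hl _ (by simp; omega)]
  · exact fun l hl ms hm => (hC l hl).2.1 ms (by omega)
  · exact fun l hl ms hm => (hC l hl).2.2 ms (by omega)
  · intro j h1 h2
    rcases Nat.lt_or_ge j (k + 3) with h3 | h3
    · exact H' j h1 h3
    · have : j = k + 3 := by omega
      subst this
      exact ⟨H, hTC⟩
  · intro j h1 h2 h3
    rcases Nat.lt_or_ge (j + 1) (k + 3) with h4 | h4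
    · exact h.kk j h1 h4 h3
    · have : j = k + 2 := by omega
      subst this
      refine stKK h ?_
      obtain ⟨r, hr⟩ := h3
      exact ⟨r - 1, by omega⟩

end

theorem St_all (k : ℕ) : St A (k + 3) := by
  induction k with
  | zero => exact St3
  | succ k ih => exact stNext ih

/-- The functions `TT` are closed at every length at least three. -/
theorem TT_closed (l : List (A × A)) (hl : HG l) (n : ℕ) (hn : 3 ≤ n) : ClosedL (TT l) n := by
  obtain ⟨k, rfl⟩ := Nat.exists_eq_add_of_le' hn
  exact closedTT (St_all k).hi (stTC (St_all k)) l hl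

end MP6489b8.CT
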