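import Mathlib
import Pool.Agent.Lib.MP_6489b8_al.CT.Induct
import Pool.Agent.Lib.MP_6489b8_al.Poly

/-!
# The initial conditions for the form `(y, y²)`
-/

namespace MP6489b8.CT

universe u

/-- The form `(y, y²)`. -/
def q1 {A : Type*} [Mul A] (y : A) : List (A × A) := [(y, y * y)]

section Basic

variable {A : Type*} [NonUnitalNonAssocRing A]

/-- The polarised form. -/
def q2 (y h : A) : List (A × A) := [(h, y * y), (y, y * h + h * y)]

/-- The full polarisation. -/
def q3 (a b c : A) : List (A × A) := [(a, b * c + c * b), (b, a * c + c * a), (c, a * b + b * a)]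

/-- The derivative of a function of two arguments. -/
def dfun (e : A) (f : A → A → A) : A → A → A := fun u v => f (D e u) v + f u (D e v)

variable [Alt2 A]

theorem I1l (y v a c : A) : y * (D c y * as v a y) = D c y * (as v a y * y) := by
  have h := I1_left Alt2.alt y v a c
  have e : com c y = D c y := by rw [com, D, sub_eq_add_neg, neg2]
  rw [e, ← as_eq_asr] at h
  exact h

theorem as_sq (a b y : A) : as a b (y * y) = D y (as a b y) := by
  rw [le, as23 (D a b) y y, as_self23, add_zero, D]; abel

theorem D_sq' (c y : A) : D c (y * y) = D y (D c y) := by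
  rw [D_comm c (y * y), ← D_sq, D_comm y c]

theorem b1_q1 (y a b c : A) : D c y * as a b (y * y) + D c (y * y) * as a b y = 0 := by
  have h := I1l y a b c
  have h1 : as (D c y) y (as a b y) + as y (D c y) (as a b y) = 0 := by rw [as12, two]
  rw [as_sq, D_sq']
  generalize as a b y = p at *
  generalize D c y = w at *
  rw [← h1]
  refine lin1 h ?_
  simp only [D, as, mul_add, add_mul]
  abel_nf
  simp only [twoZ, add_zero]

theorem b0_q1 (y a b c : A) : as c y (as a b (y * y)) + as c (y * y) (as a b y) = 0 := by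
  rw [as_sq]
  generalize as a b y = p
  rw [as23 c (y * y) p, as_sq c p y, asC c y (D y p), mo_self y p c, asC' c p y, as23 y c p, two]

end Basic

section Opposite

variable {A : Type u} [NonUnitalNonAssocRing A] [Alt2 A]

instance : Alt2 Aᵐᵒᵖ where
  alt := by
    intro x y
    have h := (Alt2.alt : IsAlt A)
    constructor
    · apply MulOpposite.unop_injective
      simp only [MulOpposite.unop_mul]
      exact ((h x.unop y.unop).2).symm
    · apply MulOpposite.unop_injective
      simp only [MulOpposite.unop_mul]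
      exact ((h x.unop y.unop).1).symm
  two a := by
    apply MulOpposite.unop_injective
    rw [MulOpposite.unop_add, MulOpposite.unop_zero, two]

theorem as_op (a b c : A) : as (MulOpposite.op a) (MulOpposite.op b) (MulOpposite.op c) =
    MulOpposite.op (as a b c) := by
  apply MulOpposite.unop_injective
  rw [as13 a b c]
  simp only [as, MulOpposite.unop_add, MulOpposite.unop_mul, MulOpposite.unop_op]
  abel

omit [Alt2 A] in
theorem D_op (a b : A) : D (MulOpposite.op a) (MulOpposite.op b) = MulOpposite.op (D a b) := by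
  apply MulOpposite.unop_injective
  simp only [D, MulOpposite.unop_add, MulOpposite.unop_mul, MulOpposite.unop_op]
  abel

theorem b2_q1 (y a b c : A) : as a b y * D c (y * y) + as a b (y * y) * D c y = 0 := by
  have h := b1_q1 (MulOpposite.op y) (MulOpposite.op a) (MulOpposite.op b) (MulOpposite.op c)
  rw [← MulOpposite.op_mul, as_op, as_op, D_op, D_op, ← MulOpposite.op_mul, ← MulOpposite.op_mul,
    ← MulOpposite.op_add] at h
  have h' := congrArg MulOpposite.unop h
  rw [MulOpposite.unop_op, MulOpposite.unop_zero] at h'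
  rw [add_comm]
  exact h'

end Opposite

section Good

variable {A : Type u} [NonUnitalNonAssocRing A] [Alt2 A]

/-- Functions of two arguments vanishing on the form and on its polarisation. -/
structure Gd (f : A → A → A) : Prop where
  a1 : ∀ u u' v, f (u + u') v = f u v + f u' v
  a2 : ∀ u v v', f u (v + v') = f u v + f u v'
  g1 : ∀ y, ev (q1 y) f = 0
  g2 : ∀ y h, ev (q2 y h) f = 0

omit [Alt2 A] in
theorem ev_q1 (f : A → A → A) (y : A) : ev (q1 y) f = f y (y * y) + f (y * y) y := by
  rw [q1, ev_cons, ev_nil, add_zero]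

omit [Alt2 A] in
theorem ev_q2 (f : A → A → A) (y h : A) : ev (q2 y h) f = f h (y * y) + f (y * y) h +
    (f y (y * h + h * y) + f (y * h + h * y) y) := by
  rw [q2, ev_cons, ev_cons, ev_nil, add_zero]

omit [Alt2 A] in
theorem ev_q3 (f : A → A → A) (a b c : A) : ev (q3 a b c) f =
    f a (b * c + c * b) + f (b * c + c * b) a + (f b (a * c + c * a) + f (a * c + c * a) b +
      (f c (a * b + b * a) + f (a * b + b * a) c)) := by
  rw [q3, ev_cons, ev_cons, ev_cons, ev_nil, add_zero]

theorem Gd.g3 {f : A → A → A} (hf : Gd f) (a b c : A) : ev (q3 a b c) f = 0 := by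
  have h1 := hf.g2 a c
  have h2 := hf.g2 b c
  have h3 := hf.g2 (a + b) c
  rw [ev_q2] at h1 h2 h3
  rw [ev_q3]
  simp only [add_mul, mul_add, hf.a1, hf.a2] at h1 h2 h3 ⊢
  refine lin3 h1 h2 h3 ?_
  abel_nf
  simp only [twoZ, add_zero]

theorem D_sq2 (e y : A) : D e (y * y) = y * D e y + D e y * y := by
  rw [D_sq', D]

theorem D_Dm (e y h : A) : D e (y * h + h * y) = y * D e h + D e h * y + (D e y * h + h * D e y) := by
  have h1 := jac e y h
  have e1 : y * h + h * y = D y h := rfl
  have e2 : y * D e h + D e h * y = D y (D e h) := rfl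
  have e3 : D e y * h + h * D e y = D (D e y) h := rfl
  rw [e1, e2, e3, ← h1]
  refine lin0 ?_
  abel_nf
  simp only [twoZ, add_zero]

theorem Gd.dfun {f : A → A → A} (hf : Gd f) (e : A) : Gd (dfun e f) where
  a1 u u' v := by simp only [CT.dfun, D_add2, hf.a1]; abel
  a2 u v v' := by simp only [CT.dfun, D_add2, hf.a2]; abel
  g1 y := by
    have h := hf.g2 y (D e y)
    rw [ev_q2] at h
    rw [ev_q1]
    simp only [CT.dfun, D_sq2, hf.a1, hf.a2] at h ⊢
    refine lin1 h ?_
    abel_nf
    simp only [twoZ, add_zero]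
  g2 y h := by
    have h1 := hf.g2 y (D e h)
    have h2 := hf.g3 y (D e y) h
    rw [ev_q2] at h1
    rw [ev_q3] at h2
    rw [ev_q2]
    simp only [CT.dfun, D_sq2, D_Dm, hf.a1, hf.a2] at h1 h2 ⊢
    refine lin2 h1 h2 ?_
    abel_nf
    simp only [twoZ, add_zero]

theorem Gd.ev_foldr (es : List A) : ∀ {f : A → A → A}, Gd f → ∀ y : A,
    ev (es.foldr der (q1 y)) f = 0 := by
  induction es with
  | nil => intro f hf y; exact hf.g1 y
  | cons e es ih =>
    intro f hf y
    rw [List.foldr_cons, ev_der]
    exact ih (hf.dfun e) y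

instance : Alt2 (Pol A) where
  alt := Pol.isAlt Alt2.alt
  two a := by
    apply Pol.ext
    intro n
    rw [map_add, two, map_zero]

omit [Alt2 A] in
theorem as_mono (i j k : ℕ) (a b c : A) :
    as (Pol.mono i a) (Pol.mono j b) (Pol.mono k c) = Pol.mono (i + j + k) (as a b c) := by
  simp only [as, Pol.mono_mul_mono, map_add, add_assoc]

omit [Alt2 A] in
theorem D_mono (i j : ℕ) (a b : A) :
    D (Pol.mono i a) (Pol.mono j b) = Pol.mono (i + j) (D a b) := by
  simp only [D, Pol.mono_mul_mono, map_add, add_comm j i]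

theorem Gd.of_pol (f : A → A → A) (a1 : ∀ u u' v, f (u + u') v = f u v + f u' v)
    (a2 : ∀ u v v', f u (v + v') = f u v + f u v') (g1 : ∀ y, f y (y * y) + f (y * y) y = 0)
    (F : Pol A → Pol A → Pol A) (A1 : ∀ u u' v, F (u + u') v = F u v + F u' v)
    (A2 : ∀ u v v', F u (v + v') = F u v + F u v')
    (G1 : ∀ y, F y (y * y) + F (y * y) y = 0)
    (hF : ∀ (i j : ℕ) (u v : A), F (Pol.mono i u) (Pol.mono j v) = Pol.mono (i + j) (f u v)) :
    Gd f where
  a1 := a1
  a2 := a2
  g1 y := by rw [ev_q1]; exact g1 y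
  g2 y h := by
    have h1 := G1 (Pol.mono 0 y + Pol.mono 1 h)
    simp only [mul_add, add_mul, Pol.mono_mul_mono, A1, A2, hF] at h1
    have h2 := congrArg (Pol.coeff 1) h1
    simp only [map_add, Pol.coeff_mono, map_zero] at h2
    norm_num at h2
    rw [ev_q2]
    simp only [a1, a2]
    refine lin1 h2 ?_
    abel_nf
    simp only [twoZ, add_zero]

theorem Gd_b1 (a b c : A) : Gd (fun u v => D c u * as a b v) := by
  refine Gd.of_pol _ (fun u u' v => by rw [D_add2, add_mul]) (fun u v v' => by
    rw [as_add3, mul_add]) (fun y => b1_q1 y a b c)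
    (fun u v => D (Pol.mono 0 c) u * as (Pol.mono 0 a) (Pol.mono 0 b) v)
    (fun u u' v => by rw [D_add2, add_mul]) (fun u v v' => by rw [as_add3, mul_add])
    (fun y => b1_q1 y _ _ _) ?_
  intro i j u v
  simp only [D_mono, as_mono, Pol.mono_mul_mono, zero_add]

theorem Gd_b2 (a b c : A) : Gd (fun u v => as a b u * D c v) := by
  refine Gd.of_pol _ (fun u u' v => by rw [as_add3, add_mul]) (fun u v v' => by
    rw [D_add2, mul_add]) (fun y => b2_q1 y a b c)
    (fun u v => as (Pol.mono 0 a) (Pol.mono 0 b) u * D (Pol.mono 0 c) v)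
    (fun u u' v => by rw [as_add3, add_mul]) (fun u v v' => by rw [D_add2, mul_add])
    (fun y => b2_q1 y _ _ _) ?_
  intro i j u v
  simp only [D_mono, as_mono, Pol.mono_mul_mono, zero_add]

theorem Gd_b0 (a b c : A) : Gd (fun u v => as c u (as a b v)) := by
  refine Gd.of_pol _ (fun u u' v => by rw [as_add2]) (fun u v v' => by
    rw [as_add3, as_add3]) (fun y => b0_q1 y a b c)
    (fun u v => as (Pol.mono 0 c) u (as (Pol.mono 0 a) (Pol.mono 0 b) v))
    (fun u u' v => by rw [as_add2]) (fun u v v' => by rw [as_add3, as_add3])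
    (fun y => b0_q1 y _ _ _) ?_
  intro i j u v
  simp only [as_mono, zero_add]

theorem Gd_b3 : Gd (fun u v : A => u * v) where
  a1 u u' v := add_mul _ _ _
  a2 u v v' := mul_add _ _ _
  g1 y := by
    have h : as y y y = 0 := as_self12 y y
    rw [ev_q1, add_comm]
    exact h
  g2 y h := by
    have h1 := D_sq y h
    rw [ev_q2]
    have h2 : h * (y * y) + y * y * h + (y * (y * h + h * y) + (y * h + h * y) * y) =
        D (y * y) h + D y (D y h) := by
      simp only [D]; abel
    rw [h2, h1, two]

/-- The initial conditions hold for the form `(y, y²)` and all its derivatives. -/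
theorem HG_q1 (y : A) : HG (q1 y) := by
  intro es
  exact ⟨fun a b c => (Gd_b1 a b c).ev_foldr es y, fun a b c => (Gd_b2 a b c).ev_foldr es y,
    fun a b c => (Gd_b0 a b c).ev_foldr es y, Gd_b3.ev_foldr es y⟩

end Good

end MP6489b8.CT
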