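import Mathlib
import Pool.Agent.Lib.MP_6489b8_al.CT.Start
import Pool.Agent.Lib.MP_6489b8_al.Mech

/-!
# The good functions of exponent two
-/

namespace MP6489b8.CT

universe u

open Function

/-- The function `T_r(x; y) = ⟨D_{x_3} ... D_{x_r} Y, ρ_{x_1 x_2} Y⟩` with `Y = (y, y²)`. -/
def TF (r : ℕ) (B : Type u) [NonUnitalNonAssocRing B] (x : Fin r → B) (y : B) : B :=
  TT (q1 y) (List.ofFn x)

section Nat

variable {B C : Type*} [NonUnitalNonAssocRing B] [NonUnitalNonAssocRing C] (φ : B →ₙ+* C)

theorem map_as (a b c : B) : φ (as a b c) = as (φ a) (φ b) (φ c) := by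
  simp only [as, map_add, map_mul]

theorem map_D (a b : B) : φ (D a b) = D (φ a) (φ b) := by
  simp only [D, map_add, map_mul]

theorem map_DW (ms : List B) (u : B) : φ (DW ms u) = DW (ms.map φ) (φ u) := by
  induction ms with
  | nil => rfl
  | cons a ms ih =>
    show φ (D a (DW ms u)) = D (φ a) (DW (ms.map φ) (φ u))
    rw [map_D, ih]

theorem map_TT_q1 (y : B) (xs : List B) : φ (TT (q1 y) xs) = TT (q1 (φ y)) (xs.map φ) := by
  match xs with
  | [] => exact map_zero φ
  | [_] => exact map_zero φ
  | d :: e :: ms =>
    show φ (pr (q1 y) (DW ms) (as d e)) = pr (q1 (φ y)) (DW (ms.map φ)) (as (φ d) (φ e))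
    rw [pr, pr, ev_q1, ev_q1]
    simp only [map_add, map_mul, map_DW, map_as]

end Nat

section Centr

variable {B : Type*} [NonUnitalNonAssocRing B]

theorem as_centr (S : Centr B) (a b c : B) : as (S.f a) b c = S.f (as a b c) := by
  simp only [as, map_add, S.left]

theorem TT_centr (S : Centr B) (y a e : B) (ms : List B) :
    TT (q1 y) (S.f a :: e :: ms) = S.f (TT (q1 y) (a :: e :: ms)) := by
  rw [TT_cc, TT_cc, pr, pr, ev_q1, ev_q1]
  simp only [as_centr, map_add, S.right]

end Centr

theorem ofFn_update {B : Type*} {r : ℕ} (x : Fin r → B) (i : Fin r) (a : B) :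
    (List.ofFn (update x i a)).Perm (a :: ((Finset.univ.erase i).toList.map x)) := by
  apply pm
  have h1 : (↑(List.ofFn (update x i a)) : Multiset B) =
      (Finset.univ : Finset (Fin r)).val.map (update x i a) := by
    rw [List.ofFn_eq_map]
    rfl
  have h2 : (Finset.univ : Finset (Fin r)).val = i ::ₘ (Finset.univ.erase i).val := by
    rw [← Finset.insert_val_of_notMem (Finset.notMem_erase i _),
      Finset.insert_erase (Finset.mem_univ i)]
  rw [h1, h2, Multiset.map_cons, update_self, ← Multiset.cons_coe, ← Multiset.map_coe,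
    Finset.coe_toList]
  congr 1
  apply Multiset.map_congr rfl
  intro j hj
  exact update_of_ne (Finset.ne_of_mem_erase (Finset.mem_val.mp hj)) _ _

section

variable {B : Type u} [NonUnitalNonAssocRing B] [Alt2 B]

theorem TF_update {r : ℕ} (hr : 3 ≤ r) (x : Fin r → B) (y : B) (i : Fin r) (a : B) :
    TF r B (update x i a) y = TT (q1 y) (a :: ((Finset.univ.erase i).toList.map x)) :=
  (TT_closed (q1 y) (HG_q1 y) r hr).perm _ _ (ofFn_update x i a) (by simp)

omit [NonUnitalNonAssocRing B] [Alt2 B] in
theorem len_erase {r : ℕ} (hr : 3 ≤ r) (x : Fin r → B) (i : Fin r) :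
    ((Finset.univ.erase i).toList.map x).length + 1 = r := by
  rw [List.length_map, Finset.length_toList, Finset.card_erase_of_mem (Finset.mem_univ i)]
  simp
  omega

theorem TF_der {r : ℕ} (hr : 3 ≤ r) (y : B) : IsAltDer r (fun x => TF r B x y) where
  add x i a b := by
    simp only [TF_update hr]
    exact (TT_closed (q1 y) (HG_q1 y) r hr).add _ _ _ (len_erase hr x i)
  mul x i a b := by
    have hc := TT_closed (q1 y) (HG_q1 y) r hr
    simp only [TF_update hr]
    rw [hc.mul _ _ _ (len_erase hr x i), hc.mulc b _ (by simpa using len_erase hr x i)]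
    abel
  centr S x i a := by
    simp only [TF_update hr]
    have hl := len_erase hr x i
    match (Finset.univ.erase i).toList.map x, hl with
    | [], hl => simp at hl; omega
    | e :: ms, _ => exact TT_centr S y a e ms
  alt x i j hij hx := by
    have hc := TT_closed (q1 y) (HG_q1 y) r hr
    have h1 : x = update x i (x i) := (update_eq_self i x).symm
    show TF r B x y = 0
    rw [h1, TF_update hr]
    have h2 : ((Finset.univ.erase i).toList.map x).Perm
        (x i :: (((Finset.univ.erase i).erase j).toList.map x)) := by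
      apply pm
      have h3 : (Finset.univ.erase i : Finset (Fin r)).val =
          j ::ₘ ((Finset.univ.erase i).erase j).val := by
        rw [← Finset.insert_val_of_notMem (Finset.notMem_erase j _),
          Finset.insert_erase (Finset.mem_erase.2 ⟨hij.symm, Finset.mem_univ j⟩)]
      rw [← Multiset.map_coe, Finset.coe_toList, h3, Multiset.map_cons, ← Multiset.cons_coe,
        ← Multiset.map_coe, Finset.coe_toList, hx]
    have hl := len_erase hr x i
    have hl2 := h2.length_eq
    rw [hc.perm _ _ (List.Perm.cons (x i) h2) (by simpa using hl)]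
    refine hc.alt _ _ ?_
    rw [hl2] at hl
    simpa using hl

theorem TF_self {r : ℕ} (hr : 3 ≤ r) (x : Fin r → B) (i : Fin r) : TF r B x (x i) = 0 := by
  have h1 : x = update x i (x i) := (update_eq_self i x).symm
  have h2 := TF_update hr x (x i) i (x i)
  rw [← h1] at h2
  rw [h2]
  have hl := len_erase hr x i
  match (Finset.univ.erase i).toList.map x, hl with
  | [], hl => simp at hl; omega
  | e :: ms, _ =>
    rw [TT_cc, pr, ev_q1]
    have e1 : as (x i) e (x i * x i) = 0 := by rw [as_sq, as_self13, D_zero2]
    rw [e1, as_self13, mul_zero, mul_zero, add_zero]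

end

/-- For every `r ≥ 3` the function `T_r` is good for exponent two. -/
theorem good_TF (r : ℕ) (hr : 3 ≤ r) : Good.{u} 2 r (TF r) where
  nat B C _ _ φ x y := by
    rw [TF, TF, map_TT_q1]
    congr 1
    rw [List.map_ofFn]
    rfl
  der B _ hB y := by
    have : Alt2 B := ⟨hB.1, fun a => by rw [← two_nsmul]; exact hB.2 a⟩
    exact TF_der hr y
  self B _ hB x i := by
    have : Alt2 B := ⟨hB.1, fun a => by rw [← two_nsmul]; exact hB.2 a⟩
    exact TF_self hr x i

end MP6489b8.CT
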