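import Mathlib
import Pool.Agent.Lib.MP_6489b8_al.CT.Alt22
import Pool.Agent.Lib.MP_6489b8_al.CT.Final
import Pool.Agent.Lib.MP_6489b8_al.Sep

/-!
# The value of `T_r`, `r` even, in the Grassmann envelope of the 22-dimensional superalgebra
-/

namespace MP6489b8.CT

universe u

open Finset Env

/-- Products of formal linear combinations. -/
def mulV : List (ℕ × ℤ) → List (ℕ × ℤ) → List (ℕ × ℤ)
  | [], _ => []
  | x :: l, l' => Tab.scal x.2 (M22.mulL x.1 l') ++ mulV l l'

/-- All entries have parity `b`. -/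
def Pa (b : Bool) (l : List (ℕ × ℤ)) : Bool := l.all fun x => M22.p x.1 == b

variable {Φ : Type u} [CommRing Φ]

theorem good_of_Pa {b : Bool} {l : List (ℕ × ℤ)} {S : Finset ℕ} (h : Pa b l = true)
    (hb : b = decide (S.card % 2 = 1)) : ∀ x ∈ l, good M22 (S, x.1) := by
  intro x hx
  have h1 := List.all_eq_true.1 h x hx
  unfold good
  rw [← hb]
  simpa using h1

section

variable (h2 : (2 : Φ) = 0)
include h2

theorem env_two (v : Env M22 Φ) : v + v = 0 := by
  rw [← two_smul Φ v, h2, zero_smul]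

theorem pow_smul (n : ℕ) (v : Env M22 Φ) : ((-1 : ℤ) ^ n) • v = v := by
  have hn : -v = v := neg_eq_of_add_eq_zero_left (env_two h2 v)
  rcases neg_one_pow_eq_or ℤ n with h | h
  · rw [h, one_smul]
  · rw [h, neg_smul, one_smul, hn]

theorem vec_mul_vec {S S' : Finset ℕ} {l l' : List (ℕ × ℤ)} (h1 : ∀ x ∈ l, good M22 (S, x.1))
    (h1' : ∀ x ∈ l', good M22 (S', x.1)) (hd : Disjoint S S') :
    (vec M22 S l * vec M22 S' l' : Env M22 Φ) = vec M22 (S ∪ S') (mulV l l') := by
  induction l with
  | nil => rw [vec, zero_mul]; rfl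
  | cons x l ih =>
    rw [vec, add_mul, ih (fun y hy => h1 y (List.mem_cons_of_mem _ hy)), mulV, vec_append,
      smul_mul_assoc, bas_mul_vec h1' (h1 x List.mem_cons_self) hd, vec_scal, sgn, pow_smul h2]

theorem vec_congr (S : Finset ℕ) (l l' : List (ℕ × ℤ)) (h : Tab.zer 2 (l ++ l') = true) :
    (vec M22 S l : Env M22 Φ) = vec M22 S l' := by
  have h0 := vec_eq_zero (Φ := Φ) (t := M22) (N := 2) (by exact_mod_cast h2) S _ h
  rw [vec_append] at h0
  have hn : -vec M22 S l' = (vec M22 S l' : Env M22 Φ) :=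
    neg_eq_of_add_eq_zero_left (env_two h2 _)
  rw [← hn]
  exact eq_neg_of_add_eq_zero_left h0

theorem mul_eval {S S' : Finset ℕ} (l l' l'' : List (ℕ × ℤ)) (b b' : Bool)
    (hb : b = decide (S.card % 2 = 1)) (hb' : b' = decide (S'.card % 2 = 1))
    (h1 : (Pa b l && Pa b' l' && Tab.zer 2 (mulV l l' ++ l'')) = true) (hd : Disjoint S S') :
    (vec M22 S l * vec M22 S' l' : Env M22 Φ) = vec M22 (S ∪ S') l'' := by
  simp only [Bool.and_eq_true] at h1
  rw [vec_mul_vec h2 (good_of_Pa h1.1.1 hb) (good_of_Pa h1.1.2 hb') hd]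
  exact vec_congr h2 _ _ _ h1.2

theorem D_eval {S S' : Finset ℕ} (l l' l'' : List (ℕ × ℤ)) (b b' : Bool)
    (hb : b = decide (S.card % 2 = 1)) (hb' : b' = decide (S'.card % 2 = 1))
    (h1 : (Pa b l && Pa b' l' && Tab.zer 2 (mulV l l' ++ mulV l' l ++ l'')) = true)
    (hd : Disjoint S S') :
    D (vec M22 S l : Env M22 Φ) (vec M22 S' l') = vec M22 (S ∪ S') l'' := by
  simp only [Bool.and_eq_true] at h1
  rw [D, vec_mul_vec h2 (good_of_Pa h1.1.1 hb) (good_of_Pa h1.1.2 hb') hd,
    vec_mul_vec h2 (good_of_Pa h1.1.2 hb') (good_of_Pa h1.1.1 hb) hd.symm, union_comm S' S,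
    ← vec_append]
  exact vec_congr h2 _ _ _ h1.2

end

theorem DW_cons {A : Type*} [NonUnitalNonAssocRing A] (a : A) (s : List A) (u : A) :
    DW (a :: s) u = D a (DW s u) := rfl

theorem DW_nil {A : Type*} [NonUnitalNonAssocRing A] (u : A) : DW [] u = u := rfl

/-- The odd elements. -/
noncomputable def XX (i : ℕ) : Env M22 Φ := vec M22 {i} [(1, 1)]

/-- The even element `a`. -/
noncomputable def aa : Env M22 Φ := vec M22 ∅ [(2, 1)]

/-- The element `y = v + w`. -/
noncomputable def yy : Env M22 Φ := vec M22 ∅ [(3, 1), (4, 1)]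

section

variable (h2 : (2 : Φ) = 0)
include h2

theorem yy_sq : (yy * yy : Env M22 Φ) = vec M22 ∅ [(10, 1), (11, 1)] := by
  rw [yy, mul_eval h2 _ _ [(10, 1), (11, 1)] false false (by simp) (by simp)
    (by decide +kernel) (disjoint_empty_left _), empty_union]

theorem D_aa_y : D aa (yy : Env M22 Φ) = vec M22 ∅ [(8, 1), (9, 1)] := by
  rw [yy, aa, D_eval h2 _ _ [(8, 1), (9, 1)] false false (by simp) (by simp)
    (by decide +kernel) (disjoint_empty_left _), empty_union]

theorem D_aa_y2 : D aa (yy * yy : Env M22 Φ) = vec M22 ∅ [(17, 1)] := by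
  rw [yy_sq h2, aa, D_eval h2 _ _ [(17, 1)] false false (by simp) (by simp)
    (by decide +kernel) (disjoint_empty_left _), empty_union]

theorem DW_y (L : List ℕ) (hL : L.Nodup) :
    DW (L.map (XX (Φ := Φ)) ++ [aa]) yy =
      vec M22 L.toFinset (if L.length % 2 = 1 then [(12, 1)] else [(8, 1), (9, 1)]) := by
  induction L with
  | nil =>
    rw [List.map_nil, List.nil_append, DW_cons, DW_nil, D_aa_y h2]
    rfl
  | cons i L ih =>
    have hL' := List.nodup_cons.1 hL
    rw [List.map_cons, List.cons_append, DW_cons, ih hL'.2, XX, List.toFinset_cons, List.length_cons, Finset.insert_eq]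
    have hc : L.toFinset.card = L.length := List.toFinset_card_of_nodup hL'.2
    have hd : Disjoint ({i} : Finset ℕ) L.toFinset := by
      rw [disjoint_singleton_left]
      simpa using hL'.1
    rcases Nat.mod_two_eq_zero_or_one L.length with h | h
    · rw [if_neg (by omega), if_pos (by omega)]
      exact D_eval h2 _ _ _ true false (by simp) (by rw [hc, h]; rfl) (by decide +kernel) hd
    · rw [if_pos (by omega), if_neg (by omega)]
      exact D_eval h2 _ _ _ true true (by simp) (by rw [hc, h]; rfl) (by decide +kernel) hd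

theorem DW_y2 (L : List ℕ) (hL : L.Nodup) :
    DW (L.map (XX (Φ := Φ)) ++ [aa]) (yy * yy) =
      vec M22 L.toFinset (if L.length % 2 = 1 then [(18, 1), (19, 1)] else [(17, 1)]) := by
  induction L with
  | nil =>
    rw [List.map_nil, List.nil_append, DW_cons, DW_nil, D_aa_y2 h2]
    rfl
  | cons i L ih =>
    have hL' := List.nodup_cons.1 hL
    rw [List.map_cons, List.cons_append, DW_cons, ih hL'.2, XX, List.toFinset_cons, List.length_cons, Finset.insert_eq]
    have hc : L.toFinset.card = L.length := List.toFinset_card_of_nodup hL'.2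
    have hd : Disjoint ({i} : Finset ℕ) L.toFinset := by
      rw [disjoint_singleton_left]
      simpa using hL'.1
    rcases Nat.mod_two_eq_zero_or_one L.length with h | h
    · rw [if_neg (by omega), if_pos (by omega)]
      exact D_eval h2 _ _ _ true false (by simp) (by rw [hc, h]; rfl) (by decide +kernel) hd
    · rw [if_pos (by omega), if_neg (by omega)]
      exact D_eval h2 _ _ _ true true (by simp) (by rw [hc, h]; rfl) (by decide +kernel) hd

theorem as_XX_y (i j : ℕ) (hij : i ≠ j) :
    as (XX i) (XX j) (yy : Env M22 Φ) = vec M22 {i, j} [(3, 1)] := by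
  have e1 : (XX i * XX j : Env M22 Φ) = vec M22 {i, j} [(0, 1)] := by
    rw [XX, XX, mul_eval h2 _ _ [(0, 1)] true true (by simp) (by simp) (by decide +kernel)
      (by simpa using hij)]
    rfl
  have e2 : (XX j * yy : Env M22 Φ) = vec M22 {j} [(6, 1), (7, 1)] := by
    rw [XX, yy, mul_eval h2 _ _ [(6, 1), (7, 1)] true false (by simp) (by simp)
      (by decide +kernel) (disjoint_empty_right _), union_empty]
  have e3 : (XX i * (XX j * yy) : Env M22 Φ) = vec M22 {i, j} [(4, 1)] := by
    rw [e2, XX, mul_eval h2 _ _ [(4, 1)] true true (by simp) (by simp) (by decide +kernel)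
      (by simpa using hij)]
    rfl
  have e4 : (XX i * XX j * yy : Env M22 Φ) = vec M22 {i, j} [(3, 1), (4, 1)] := by
    rw [e1, yy, mul_eval h2 _ _ [(3, 1), (4, 1)] false false (by rw [card_pair hij]; rfl)
      (by simp) (by decide +kernel) (disjoint_empty_right _), union_empty]
  rw [as, e3, e4, ← vec_append]
  exact vec_congr h2 _ _ _ (by decide +kernel)

theorem as_XX_y2 (i j : ℕ) (hij : i ≠ j) :
    as (XX i) (XX j) (yy * yy : Env M22 Φ) = vec M22 {i, j} [(10, 1), (11, 1)] := by
  have e1 : (XX i * XX j : Env M22 Φ) = vec M22 {i, j} [(0, 1)] := by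
    rw [XX, XX, mul_eval h2 _ _ [(0, 1)] true true (by simp) (by simp) (by decide +kernel)
      (by simpa using hij)]
    rfl
  have e2 : (XX j * (yy * yy) : Env M22 Φ) = vec M22 {j} [] := by
    rw [yy_sq h2, XX, mul_eval h2 _ _ [] true false (by simp) (by simp)
      (by decide +kernel) (disjoint_empty_right _), union_empty]
  have e4 : (XX i * XX j * (yy * yy) : Env M22 Φ) = vec M22 {i, j} [(10, 1), (11, 1)] := by
    rw [e1, yy_sq h2, mul_eval h2 _ _ [(10, 1), (11, 1)] false false (by rw [card_pair hij]; rfl)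
      (by simp) (by decide +kernel) (disjoint_empty_right _), union_empty]
  rw [as, e2, e4, vec, mul_zero, add_zero]

/-- The value of the function. -/
theorem TT_eval (L : List ℕ) (hL : L.Nodup) (ho : L.length % 2 = 1) (h0 : 0 ∉ L) (h1 : 1 ∉ L) :
    TT (q1 (yy : Env M22 Φ)) (XX 0 :: XX 1 :: (L.map XX ++ [aa])) =
      vec M22 (L.toFinset ∪ {0, 1}) [(21, 1)] := by
  have hc : L.toFinset.card = L.length := List.toFinset_card_of_nodup hL
  have hd : Disjoint L.toFinset ({0, 1} : Finset ℕ) := by
    rw [disjoint_right]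
    intro a ha
    simp only [mem_insert, mem_singleton] at ha
    rcases ha with rfl | rfl
    · simpa using h0
    · simpa using h1
  rw [TT_cc, pr, ev_q1, DW_y h2 L hL, DW_y2 h2 L hL, as_XX_y h2 0 1 (by decide),
    as_XX_y2 h2 0 1 (by decide), if_pos ho, if_pos ho]
  have e1 : (vec M22 L.toFinset [(12, 1)] * vec M22 {0, 1} [(10, 1), (11, 1)] : Env M22 Φ) =
      vec M22 (L.toFinset ∪ {0, 1}) [(21, 1)] :=
    mul_eval h2 _ _ _ true false (by rw [hc, ho]; rfl) (by decide) (by decide +kernel) hd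
  have e2 : (vec M22 L.toFinset [(18, 1), (19, 1)] * vec M22 {0, 1} [(3, 1)] : Env M22 Φ) =
      vec M22 (L.toFinset ∪ {0, 1}) [] :=
    mul_eval h2 _ _ _ true false (by rw [hc, ho]; rfl) (by decide) (by decide +kernel) hd
  rw [e1, e2, ← vec_append]
  rfl

/-- **The chain is strict at every even `m ≥ 4` in characteristic two.** -/
theorem strictStep_even [Nontrivial Φ] (m : ℕ) (hm : 4 ≤ m) (he : Even m) : StrictStep Φ m := by
  obtain ⟨k, rfl⟩ : ∃ k, m = k + 3 := ⟨m - 3, by omega⟩
  let L : List ℕ := List.range' 2 k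
  have hL : L.Nodup := List.nodup_range' ..
  have hlen : L.length = k := List.length_range'
  have h0 : 0 ∉ L := by
    intro h
    have := (List.mem_range'_1.1 h).1
    omega
  have h1 : 1 ∉ L := by
    intro h
    have := (List.mem_range'_1.1 h).1
    omega
  have ho : L.length % 2 = 1 := by
    rw [hlen]
    obtain ⟨r, hr⟩ := he
    omega
  let xs : List (Env M22 Φ) := XX 0 :: XX 1 :: (L.map XX ++ [aa])
  have hxs : xs.length = k + 3 := by simp [xs, hlen]
  have hA : IsAlt (Env M22 Φ) := isAlt (N := 2) (by exact_mod_cast h2) M22_alt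
  rw [← hxs]
  refine (good_TF xs.length (by omega)).strictStep (by omega) Φ 1 ?_ (Env M22 Φ) hA xs.get yy ?_
  · rw [one_mul]; exact_mod_cast h2
  · rw [one_smul, TF, List.ofFn_get, TT_eval h2 L hL ho h0 h1]
    intro h
    have h3 := congrArg (coef (L.toFinset ∪ {0, 1}, 21)) h
    rw [coef_vec, map_zero] at h3
    have h4 : Tab.cf 21 [((21 : ℕ), (1 : ℤ))] = 1 := rfl
    rw [h4, Int.cast_one] at h3
    exact one_ne_zero h3

end

end MP6489b8.CT
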